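import Mathlib

/-! The piecewise linear function which bounds the loss in the energy, and its pieces. -/

set_option autoImplicit false

namespace Pool.Agent.H23.AF

/-- Loss in the energy: `r` is the logarithm of the radical, `s` the logarithm of the modulus. -/
noncomputable def ell (r s : ℝ) : ℝ :=
  max (max 0 (r - s)) (max ((4 * r - 3 * s) / 5) ((2 * r - s) / 5))

theorem e0 {r s : ℝ} (hr : 0 ≤ r) (hs : 0 ≤ s) : ell r s ≤ r := by
  unfold ell
  refine max_le (max_le hr (by linarith)) (max_le (by linarith) (by linarith))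

theorem e1 {r s : ℝ} (hr : 0 ≤ r) (h : r ≤ s) : ell r s ≤ r / 5 := by
  unfold ell
  refine max_le (max_le (by linarith) (by linarith)) (max_le (by linarith) (by linarith))

theorem e2 {r s : ℝ} (hs : 0 ≤ s) (h : s ≤ r) : ell r s ≤ r - 4 / 5 * s := by
  unfold ell
  refine max_le (max_le (by linarith) (by linarith)) (max_le (by linarith) (by linarith))

theorem e3 {r s : ℝ} (hr : 0 ≤ r) (h : 2 * r ≤ s) : ell r s ≤ 0 := by
  unfold ell
  refine max_le (max_le (by linarith) (by linarith)) (max_le (by linarith) (by linarith))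

theorem e4 {r s : ℝ} (_hr : 0 ≤ r) (h : r ≤ s) (h' : s ≤ 2 * r) : ell r s ≤ (2 * r - s) / 5 := by
  unfold ell
  refine max_le (max_le (by linarith) (by linarith)) (max_le (by linarith) (by linarith))

theorem e5 {r s : ℝ} (h : s ≤ r) (h' : r ≤ 2 * s) : ell r s ≤ (4 * r - 3 * s) / 5 := by
  unfold ell
  refine max_le (max_le (by linarith) (by linarith)) (max_le (by linarith) (by linarith))

theorem e6 {r s : ℝ} (hs : 0 ≤ s) (h : 2 * s ≤ r) : ell r s ≤ r - s := by
  unfold ell
  refine max_le (max_le (by linarith) (by linarith)) (max_le (by linarith) (by linarith))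

end Pool.Agent.H23.AF
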