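import Pool.Agent.H38.AE.Targets
import Pool.Agent.H23.AF.Ell

/-! Targets of the modules for the exponent `4 / (7 M)` in the exceptional set of the abc
conjecture. -/

set_option autoImplicit false

namespace Pool.Agent.H23.AF

open Pool.Agent.H38.AE

/-- The size of the energy modulo `Q` of the integers of radical `R`. -/
noncomputable def w5 (Q R : ℝ) : ℝ :=
  R * (1 + R / Q + R ^ ((4 : ℝ) / 5) / Q ^ ((3 : ℝ) / 5) + (R ^ 2 / Q) ^ ((1 : ℝ) / 5))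

/-- WE: comparison of `w5` with `ell`. -/
def T_WE : Prop :=
  (∀ Q R : ℝ, 1 ≤ Q → 1 ≤ R → R * Real.exp (ell (Real.log R) (Real.log Q)) ≤ w5 Q R ∧
    w5 Q R ≤ 4 * (R * Real.exp (ell (Real.log R) (Real.log Q)))) ∧
  (∀ Q R R' : ℝ, 1 ≤ Q → 1 ≤ R → R ≤ R' → w5 Q R ≤ w5 Q R') ∧
  (∀ Q Q' R : ℝ, 1 ≤ Q → 1 ≤ R → Q ≤ Q' → w5 Q' R ≤ w5 Q R) ∧
  (∀ Q R : ℝ, 1 ≤ Q → 1 ≤ R → w5 Q R ≤ 2 * w5 (2 * Q) R)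

/-! ### Energy -/

/-- Number of coincidences of products of `n` values. -/
noncomputable def En {G : Type} [CommGroup G] [DecidableEq G] (B : Finset ℕ) (f : ℕ → G) (n : ℕ) :
    ℝ :=
  ((((Fintype.piFinset (fun _ : Fin n => B)) ×ˢ (Fintype.piFinset (fun _ : Fin n => B))).filter
    (fun t => ∏ i, f (t.1 i) = ∏ i, f (t.2 i))).card : ℝ)

/-- HG: Hölder's inequality for coincidences in a finite commutative group. -/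
def T_HG : Prop := ∀ (G : Type) [CommGroup G] [Fintype G] [DecidableEq G] (K : ℕ)
  (B : Fin K → Finset ℕ) (f : Fin K → ℕ → G) (J : Finset (Fin K)) (n : Fin K → ℕ)
  (α β : Fin K → ℝ), (∀ j ∈ J, 1 ≤ n j ∧ 0 ≤ α j ∧ 0 ≤ β j ∧
    (n j : ℝ) * α j + ((n j : ℝ) + 1) * β j = 1) → ∑ j ∈ J, (α j + β j) ≤ 1 →
  ((((Fintype.piFinset B) ×ˢ (Fintype.piFinset B)).filter
    (fun t => ∏ j, f j (t.1 j) = ∏ j, f j (t.2 j))).card : ℝ) ≤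
  (∏ j ∈ Jᶜ, ((B j).card : ℝ) ^ 2) *
    ∏ j ∈ J, (En (B j) (f j) (n j) ^ α j * En (B j) (f j) (n j + 1) ^ β j)

/-- CI: the loss of the interpolated exponents. -/
def T_CI : Prop := ∀ (n : ℕ) (w A s : ℝ), 1 ≤ n → 1 ≤ ((n : ℝ) + 1) * w → (n : ℝ) * w ≤ 1 →
  0 ≤ A → 0 ≤ s →
  (((n : ℝ) + 1) * w - 1) * max ((n : ℝ) * (w * A)) (2 * (n : ℝ) * (w * A) - s) +
    (1 - (n : ℝ) * w) *
      max (((n : ℝ) + 1) * (w * A)) (2 * ((n : ℝ) + 1) * (w * A) - s) ≤ w * A + w * ell A s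

/-- Cells of the logarithm. -/
noncomputable def cel (T j y : ℕ) : ℕ := ⌊(T : ℝ) * j * Real.log y⌋₊

/-- D2: moments, with cells. -/
def T_D2 : Prop := ∀ (j n : ℕ) (ε : ℝ), 1 ≤ j → 1 ≤ n → 0 < ε → ∃ C : ℝ, 0 < C ∧
  ∀ (q T : ℕ) [NeZero q] (Y : ℕ), 1 ≤ Y →
  ((((Fintype.piFinset (fun _ : Fin n => Finset.Ico Y (2 * Y))) ×ˢ
      (Fintype.piFinset (fun _ : Fin n => Finset.Ico Y (2 * Y)))).filter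
    (fun t => ((∏ i, t.1 i : ℕ) : ZMod q) ^ j = ((∏ i, t.2 i : ℕ) : ZMod q) ^ j ∧
      IsUnit (((∏ i, t.1 i : ℕ) : ZMod q) ^ j) ∧
      ∑ i, cel T j (t.1 i) = ∑ i, cel T j (t.2 i))).card : ℝ) ≤
    C * ((q : ℝ) * Y) ^ ε * ((Y : ℝ) ^ n + (Y : ℝ) ^ (2 * n) / ((q : ℝ) * ((T : ℝ) + 1)))

/-- F2: energy of a box of exponent parts, with an archimedean condition. -/
def T_F2 : Prop := ∀ (K : ℕ) (ε : ℝ), 0 < ε → ∃ C : ℝ, 0 < C ∧ ∀ (N q T : ℕ) [NeZero q], q ≤ N →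
  ∀ Y : Fin K → ℕ, (∀ j, 1 ≤ Y j) → ∏ j, Y j ≤ N →
  ((((Fintype.piFinset (fun j => Finset.Ico (Y j) (2 * Y j))) ×ˢ
      (Fintype.piFinset (fun j => Finset.Ico (Y j) (2 * Y j)))).filter
    (fun t => (∏ j, ((t.1 j : ℕ) : ZMod q) ^ (j.val + 1)) =
        ∏ j, ((t.2 j : ℕ) : ZMod q) ^ (j.val + 1) ∧
      IsUnit (∏ j, ((t.1 j : ℕ) : ZMod q) ^ (j.val + 1)) ∧
      (T : ℝ) * |∑ j, ((j.val : ℝ) + 1) * (Real.log (t.1 j) - Real.log (t.2 j))| ≤ 1)).card : ℝ) ≤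
    C * (N : ℝ) ^ ε * w5 ((q : ℝ) * ((T : ℝ) + 1)) (((∏ j, Y j : ℕ) : ℝ))

/-- G2: weighted energy of the integers up to `N` modulo `q`, with an archimedean condition. -/
def T_G2 : Prop := ∀ ε : ℝ, 0 < ε → ∃ C : ℝ, 0 < C ∧ ∀ (N q T : ℕ) [NeZero q], 1 ≤ N → q ≤ N →
  ∀ u : (ZMod q)ˣ,
  ∑ t ∈ ((Finset.Icc 1 N) ×ˢ (Finset.Icc 1 N)).filter
      (fun t => ((t.1 : ℕ) : ZMod q) = u * ((t.2 : ℕ) : ZMod q) ∧ IsUnit ((t.1 : ℕ) : ZMod q) ∧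
        (T : ℝ) * |Real.log t.1 - Real.log t.2| ≤ 2),
    1 / Real.sqrt (w5 ((q : ℝ) * ((T : ℝ) + 1)) (rad t.1) *
      w5 ((q : ℝ) * ((T : ℝ) + 1)) (rad t.2)) ≤ C * (N : ℝ) ^ ε

/-! ### Integral points on `a x ^ e + b y ^ f = E` -/

/-- Rectangle of exponents. -/
def mon2 (J f : ℕ) : Finset (ℕ × ℕ) := Finset.range J ×ˢ Finset.range f

/-- R2: points of a class lie on a curve of degree less than `f` in `y`. -/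
def T_R2 : Prop := ∀ (J ℓ : ℕ) (a b E : ℤ) (e f U V : ℕ), 1 ≤ J → ℓ.Prime → 2 ≤ e → 2 ≤ f →
  ¬ (ℓ : ℤ) ∣ a → ¬ (ℓ : ℤ) ∣ b → ¬ (ℓ : ℤ) ∣ E → ¬ ℓ ∣ e → ¬ ℓ ∣ f →
  (Nat.factorial (J * f)) * (U ^ (f * (J * (J - 1) / 2)) * V ^ (J * (f * (f - 1) / 2))) <
    ℓ ^ (J * f * (J * f - 1) / 2) →
  ∀ P : Finset (ℤ × ℤ), (∀ t ∈ P, 1 ≤ t.1 ∧ t.1 ≤ U ∧ 1 ≤ t.2 ∧ t.2 ≤ V ∧
    a * t.1 ^ e + b * t.2 ^ f = E) →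
  (∀ t ∈ P, ∀ t' ∈ P, (ℓ : ℤ) ∣ t.1 - t'.1 ∧ (ℓ : ℤ) ∣ t.2 - t'.2) →
  ∃ h : ℕ × ℕ → ℚ, (∃ m ∈ mon2 J f, h m ≠ 0) ∧
    ∀ t ∈ P, ∑ m ∈ mon2 J f, h m * (t.1 : ℚ) ^ m.1 * (t.2 : ℚ) ^ m.2 = 0

/-- B2: intersection of the curve with a curve of degree less than `f` in `y`. -/
def T_B2 : Prop := ∀ (J e f : ℕ), 1 ≤ e → 1 ≤ f → ∃ B : ℕ, ∀ (a b E : ℤ), a ≠ 0 → b ≠ 0 →
  E ≠ 0 → ∀ h : ℕ × ℕ → ℚ, (∃ m ∈ mon2 J f, h m ≠ 0) →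
  ∀ P : Finset (ℤ × ℤ), (∀ t ∈ P, 1 ≤ t.1 ∧ 1 ≤ t.2 ∧ a * t.1 ^ e + b * t.2 ^ f = E ∧
    ∑ m ∈ mon2 J f, h m * (t.1 : ℚ) ^ m.1 * (t.2 : ℚ) ^ m.2 = 0) →
  P.card ≤ B

/-- A2: the bound of Bombieri and Pila for this curve. -/
def T_A2 : Prop := ∀ (e f : ℕ) (ε : ℝ), 2 ≤ e → 2 ≤ f → 0 < ε → ∃ C : ℝ, 0 < C ∧
  ∀ (N : ℕ) (a b E : ℤ), 1 ≤ N → a ≠ 0 → b ≠ 0 → E ≠ 0 → |a| ≤ N → |b| ≤ N → |E| ≤ N →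
  ∀ U V : ℕ, 1 ≤ U → 1 ≤ V → U ≤ N → V ≤ N →
  (((Finset.Icc 1 U ×ˢ Finset.Icc 1 V).filter
    (fun t => a * (t.1 : ℤ) ^ e + b * (t.2 : ℤ) ^ f = E)).card : ℝ) ≤
    C * (N : ℝ) ^ ε * (U : ℝ) ^ ((1 : ℝ) / f)

/-- QL: few coprime points if the exponents are equal and at least `2`. -/
def T_QL : Prop := ∀ (g : ℕ) (ε : ℝ), 2 ≤ g → 0 < ε → ∃ C : ℝ, 0 < C ∧
  ∀ (N : ℕ) (a b E : ℤ), 1 ≤ N → a ≠ 0 → b ≠ 0 → E ≠ 0 → |E| ≤ N →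
  (((Finset.Icc 1 N ×ˢ Finset.Icc 1 N).filter
    (fun t => a * (t.1 : ℤ) ^ g + b * (t.2 : ℤ) ^ g = E ∧ |a * (t.1 : ℤ) ^ g| ≤ N ∧
      |b * (t.2 : ℤ) ^ g| ≤ N ∧ IsCoprime (a * (t.1 : ℤ)) (b * (t.2 : ℤ)))).card : ℝ) ≤
    C * (N : ℝ) ^ ε

/-! ### Families of triples -/

/-- The maximum of the absolute values. -/
def mx (t : ℤ × ℤ × ℤ) : ℤ := max |t.1| (max |t.2.1| |t.2.2|)

/-- Triples with a good divisor `q` of the third entry. -/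
def SE2 (H : ℕ) (Z : ℝ) : Set (ℤ × ℤ × ℤ) :=
  {t | t ∈ Tri H ∧ ∃ q : ℕ, 1 ≤ q ∧ (q : ℤ) ∣ t.2.2 ∧
    (rad q : ℝ) * Real.sqrt (w5 ((q : ℝ) * (mx t : ℝ) / |(t.2.2 : ℝ)|) (RR t.1) *
      w5 ((q : ℝ) * (mx t : ℝ) / |(t.2.2 : ℝ)|) (RR t.2.1)) ≤ Z}

/-- Triples whose first two entries are nearly powers. -/
def SJ2 (H : ℕ) (Z : ℝ) (K : ℕ) : Set (ℤ × ℤ × ℤ) :=
  {t | t ∈ Tri H ∧ ∃ (a b : ℤ) (p r e f : ℕ), 1 ≤ p ∧ 1 ≤ r ∧ 2 ≤ e ∧ e ≤ K ∧ 2 ≤ f ∧ f ≤ K ∧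
    t.1 = a * (p : ℤ) ^ e ∧ t.2.1 = b * (r : ℤ) ^ f ∧
    RR a * RR b * RR t.2.2 * (p : ℝ) ^ ((1 : ℝ) / f) ≤ Z}

/-- Triples whose first two entries are nearly powers with the same exponent. -/
def SQ (H : ℕ) (Z : ℝ) (K : ℕ) : Set (ℤ × ℤ × ℤ) :=
  {t | t ∈ Tri H ∧ ∃ (a b : ℤ) (X Y g : ℕ), 1 ≤ X ∧ 1 ≤ Y ∧ 2 ≤ g ∧ g ≤ K ∧
    t.1 = a * (X : ℤ) ^ g ∧ t.2.1 = b * (Y : ℤ) ^ g ∧ RR a * RR b * RR t.2.2 ≤ Z}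

/-- JE: number of the triples with a good divisor. -/
def T_JE : Prop := ∀ ε : ℝ, 0 < ε → ∃ C : ℝ, 0 < C ∧ ∀ (H : ℕ) (Z : ℝ), 1 ≤ H → 0 ≤ Z →
  ((SE2 H Z).ncard : ℝ) ≤ C * (H : ℝ) ^ ε * Z

/-- JJ: number of the triples with two entries that are nearly powers. -/
def T_JJ : Prop := ∀ (K : ℕ) (ε : ℝ), 0 < ε → ∃ C : ℝ, 0 < C ∧ ∀ (H : ℕ) (Z : ℝ), 1 ≤ H →
  0 ≤ Z → ((SJ2 H Z K).ncard : ℝ) ≤ C * (H : ℝ) ^ ε * Z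

/-- JQ: the same for equal exponents. -/
def T_JQ : Prop := ∀ (K : ℕ) (ε : ℝ), 0 < ε → ∃ C : ℝ, 0 < C ∧ ∀ (H : ℕ) (Z : ℝ), 1 ≤ H →
  0 ≤ Z → ((SQ H Z K).ncard : ℝ) ≤ C * (H : ℝ) ^ ε * Z

/-- I2: splitting an integer. -/
def T_I2 : Prop := ∀ x : ℕ, 1 ≤ x →
  (∃ p : ℕ, p.Prime ∧ p ∣ x ∧ x ^ 2 ≤ (p ^ (x.factorization p)) ^ 3) ∨
  (∃ q₁ q₂ : ℕ, q₁ * q₂ = x ∧ Nat.Coprime q₁ q₂ ∧ q₁ ≤ q₂ ∧ x ≤ q₁ ^ 3)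

/-! ### The covering in terms of logarithms -/

/-- Data of one entry: `r` radical, `(a, s)` radical and size of the first part, `(b, g)` of the
second part, `t` the free size; `e = 0`: split entry, `e ≥ 1`: the first part is a prime power
with exponent `e`. -/
structure Da where
  r : ℝ
  a : ℝ
  s : ℝ
  b : ℝ
  g : ℝ
  t : ℝ
  e : ℕ

/-- The constraints for the data of one entry. -/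
def OK (S : ℝ) (x : Da) : Prop :=
  0 ≤ x.a ∧ 0 ≤ x.s ∧ 0 ≤ x.b ∧ 0 ≤ x.g ∧ 0 ≤ x.t ∧ x.r = x.a + x.b ∧ x.s + x.g + x.t = S ∧
  x.b ≤ x.g ∧ x.a ≤ x.s ∧
  ((x.e = 0 ∧ x.s ≤ x.g ∧ x.g ≤ 2 * x.s) ∨ (1 ≤ x.e ∧ x.s = x.e * x.a ∧ 2 * x.g ≤ x.s))

/-- The three energy costs for the entry `x` exceed `z`. -/
def BE (z : ℝ) (x y w : Da) : Prop :=
  z < x.a + (y.r + w.r) / 2 + (ell y.r (x.s + x.t) + ell w.r (x.s + x.t)) / 2 ∧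
  z < x.b + (y.r + w.r) / 2 + (ell y.r (x.g + x.t) + ell w.r (x.g + x.t)) / 2 ∧
  z < (y.r + w.r) / 2 + (ell y.r x.t + ell w.r x.t) / 2

/-- The curve cost for the entries `x, y` exceeds `z`. -/
def BJ (z : ℝ) (x y w : Da) : Prop :=
  2 ≤ x.e → 2 ≤ y.e → z < x.r + y.r + w.r - x.a - y.a + x.a / y.e

/-- The cost for the entries `x, y` with a common exponent exceeds `z`. -/
def BQ (z : ℝ) (x y w : Da) : Prop :=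
  1 ≤ x.e → 1 ≤ y.e → 2 ≤ Nat.gcd x.e y.e → z < x.r + y.r + w.r - x.a - y.a

/-- All costs of the triple `x, y, w` exceed `z`. -/
def BA (z : ℝ) (x y w : Da) : Prop :=
  (z < x.r + y.r ∧ z < x.r + w.r ∧ z < y.r + w.r) ∧
  (BE z x y w ∧ BE z y x w ∧ BE z w x y) ∧
  (BJ z x y w ∧ BJ z y x w ∧ BJ z x w y ∧ BJ z w x y ∧ BJ z y w x ∧ BJ z w y x) ∧
  (BQ z x y w ∧ BQ z x w y ∧ BQ z y w x)

/-- LP: the covering. -/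
def T_LP : Prop := ∀ (S Λ : ℝ) (x y w : Da), 0 < Λ → Λ ≤ S → OK S x → OK S y → OK S w →
  x.r + y.r + w.r ≤ Λ → ¬ BA (4 / 7 * Λ) x y w

/-- The union of the families. -/
def SU2 (H : ℕ) (Z : ℝ) (K : ℕ) : Set (ℤ × ℤ × ℤ) := ST H Z ∪ SE2 H Z ∪ SJ2 H Z K ∪ SQ H Z K

/-- KC: covering of the exceptional triples. -/
def T_KC : Prop := ∀ M : ℝ, 1 ≤ M → ∃ K : ℕ, ∀ (N : ℕ) (t : ℤ × ℤ × ℤ), 1 ≤ N → t ∈ Exc M N →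
  ∃ x y z : ℤ, (x, y, z) ∈ SU2 N (4 * (N : ℝ) ^ (4 / (7 * M))) K ∧
      (t = (x, y, z) ∨ t = (x, z, y) ∨ t = (y, x, z) ∨ t = (y, z, x) ∨ t = (z, x, y) ∨
        t = (z, y, x))

/-- Main theorem. -/
def T_M2 : Prop := ∀ (M ε : ℝ), 1 ≤ M → 0 < ε → ∃ C : ℝ, 0 < C ∧ ∀ N : ℕ, 1 ≤ N →
  ((Exc M N).ncard : ℝ) ≤ C * (N : ℝ) ^ (4 / (7 * M) + ε)

end Pool.Agent.H23.AF
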