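import Pool.Agent.H23.AF.Targets
import Pool.Agent.H31.AE.L

/-! The main theorem from the covering and the counts of the families. -/

set_option autoImplicit false

namespace Pool.Agent.H23.AF

open Pool.Agent.H38.AE

theorem su2_sub (H : ℕ) (Z : ℝ) (K : ℕ) : SU2 H Z K ⊆ Tri H := by
  rintro t (((h | h) | h) | h) <;> exact h.1

theorem pf_M2 (hK : T_KC) (h1 : T_J1) (h2 : T_JE) (h3 : T_JJ) (h4 : T_JQ) : T_M2 := by
  intro M ε hM hε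
  obtain ⟨K, hKK⟩ := hK M hM
  obtain ⟨C1, hC1, h1⟩ := h1 ε hε
  obtain ⟨C2, hC2, h2⟩ := h2 ε hε
  obtain ⟨C3, hC3, h3⟩ := h3 K ε hε
  obtain ⟨C4, hC4, h4⟩ := h4 K ε hε
  refine ⟨24 * (C1 + C2 + C3 + C4), by positivity, ?_⟩
  intro N hN
  have hN0 : (0 : ℝ) < N := by exact_mod_cast hN
  have hZ : 0 ≤ 4 * (N : ℝ) ^ (4 / (7 * M)) := by positivity
  have a1 := h1 N _ hN hZ
  have a2 := h2 N _ hN hZ
  have a3 := h3 N _ hN hZ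
  have a4 := h4 N _ hN hZ
  have hfin : (SU2 N (4 * (N : ℝ) ^ (4 / (7 * M))) K).Finite :=
    (Pool.Agent.H31.AE.tri_finite N).subset (su2_sub _ _ _)
  have hcard : ((SU2 N (4 * (N : ℝ) ^ (4 / (7 * M))) K).ncard : ℝ) ≤
      (ST N (4 * (N : ℝ) ^ (4 / (7 * M)))).ncard + (SE2 N (4 * (N : ℝ) ^ (4 / (7 * M)))).ncard +
      (SJ2 N (4 * (N : ℝ) ^ (4 / (7 * M))) K).ncard +
      (SQ N (4 * (N : ℝ) ^ (4 / (7 * M))) K).ncard := by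
    unfold SU2
    have hu := (Set.ncard_union_le (ST N (4 * (N : ℝ) ^ (4 / (7 * M))) ∪
      SE2 N (4 * (N : ℝ) ^ (4 / (7 * M))) ∪ SJ2 N (4 * (N : ℝ) ^ (4 / (7 * M))) K)
      (SQ N (4 * (N : ℝ) ^ (4 / (7 * M))) K)).trans
      (Nat.add_le_add_right ((Set.ncard_union_le _ _).trans
        (Nat.add_le_add_right (Set.ncard_union_le _ _) _)) _)
    exact_mod_cast hu
  have h6 := Pool.Agent.H31.AE.per_card (Exc M N) _ hfin (fun t ht => hKK N t hN ht)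
  have h6' : ((Exc M N).ncard : ℝ) ≤
      6 * ((SU2 N (4 * (N : ℝ) ^ (4 / (7 * M))) K).ncard : ℝ) := by exact_mod_cast h6
  rw [Real.rpow_add hN0]
  calc ((Exc M N).ncard : ℝ) ≤ 6 * ((SU2 N (4 * (N : ℝ) ^ (4 / (7 * M))) K).ncard : ℝ) := h6'
    _ ≤ 6 * (C1 * (N : ℝ) ^ ε * (4 * (N : ℝ) ^ (4 / (7 * M))) +
        C2 * (N : ℝ) ^ ε * (4 * (N : ℝ) ^ (4 / (7 * M))) +
        C3 * (N : ℝ) ^ ε * (4 * (N : ℝ) ^ (4 / (7 * M))) +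
        C4 * (N : ℝ) ^ ε * (4 * (N : ℝ) ^ (4 / (7 * M)))) := by linarith
    _ = 24 * (C1 + C2 + C3 + C4) * ((N : ℝ) ^ (4 / (7 * M)) * (N : ℝ) ^ ε) := by ring

end Pool.Agent.H23.AF
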