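import Pool.Agent.H23.AF.KCU
import Pool.Agent.H23.AF.M2

/-! The main theorem, uniform in the exponent. -/

set_option autoImplicit false

namespace Pool.Agent.H23.AF

open Pool.Agent.H38.AE

/-- Triples of height at most `N` whose radical is at most `B` and smaller than the maximum. -/
def Sm (N : ℕ) (B : ℝ) : Set (ℤ × ℤ × ℤ) :=
  {t | t ∈ Tri N ∧ (rad (t.1 * t.2.1 * t.2.2).natAbs : ℝ) ≤ B ∧
    (rad (t.1 * t.2.1 * t.2.2).natAbs : ℝ) < (mx t : ℝ)}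

/-- The count, uniformly in `N` and `B`. -/
def T_M2U : Prop := ∀ ε : ℝ, 0 < ε → ∃ C : ℝ, 0 < C ∧ ∀ (N : ℕ) (B : ℝ), 1 ≤ N → 1 ≤ B →
  ((Sm N B).ncard : ℝ) ≤ C * ((N : ℝ) ^ ε * B ^ ((4 : ℝ) / 7))

theorem pf_M2U (hK : T_KCU) (h1 : T_J1) (h2 : T_JE) (h3 : T_JJ) (h4 : T_JQ) : T_M2U := by
  intro ε hε
  obtain ⟨M, hM1, hM⟩ : ∃ M : ℝ, 1 ≤ M ∧ 4 / (7 * M) ≤ ε / 2 := by
    refine ⟨max 1 (8 / (7 * ε)), le_max_left _ _, ?_⟩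
    have h1 : 8 / (7 * ε) ≤ max 1 (8 / (7 * ε)) := le_max_right _ _
    have h0 : (1 : ℝ) ≤ max 1 (8 / (7 * ε)) := le_max_left _ _
    rw [div_le_iff₀ (by positivity)] at h1
    rw [div_le_iff₀ (by linarith)]
    nlinarith
  obtain ⟨K, hKK⟩ := hK M hM1
  obtain ⟨C1, hC1, h1⟩ := h1 (ε / 2) (by linarith)
  obtain ⟨C2, hC2, h2⟩ := h2 (ε / 2) (by linarith)
  obtain ⟨C3, hC3, h3⟩ := h3 K (ε / 2) (by linarith)
  obtain ⟨C4, hC4, h4⟩ := h4 K (ε / 2) (by linarith)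
  refine ⟨24 * (C1 + C2 + C3 + C4), by positivity, ?_⟩
  intro N B hN hB
  have hN0 : (0 : ℝ) < N := by exact_mod_cast hN
  have hN1 : (1 : ℝ) ≤ N := by exact_mod_cast hN
  obtain ⟨Z, hZdef⟩ : ∃ Z : ℝ, Z = 4 * (B ^ ((4 : ℝ) / 7) * (N : ℝ) ^ (4 / (7 * M))) := ⟨_, rfl⟩
  have hB0 : 0 ≤ B ^ ((4 : ℝ) / 7) := by positivity
  have hZ : 0 ≤ Z := by rw [hZdef]; positivity
  have hZle : Z ≤ 4 * (B ^ ((4 : ℝ) / 7) * (N : ℝ) ^ (ε / 2)) := by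
    rw [hZdef]
    have : (N : ℝ) ^ (4 / (7 * M)) ≤ (N : ℝ) ^ (ε / 2) := Real.rpow_le_rpow_of_exponent_le hN1 hM
    have := mul_le_mul_of_nonneg_left this hB0
    linarith
  have a1 := h1 N _ hN hZ
  have a2 := h2 N _ hN hZ
  have a3 := h3 N _ hN hZ
  have a4 := h4 N _ hN hZ
  have hfin : (SU2 N Z K).Finite := (Pool.Agent.H31.AE.tri_finite N).subset (su2_sub _ _ _)
  have hcard : ((SU2 N Z K).ncard : ℝ) ≤
      (ST N Z).ncard + (SE2 N Z).ncard + (SJ2 N Z K).ncard + (SQ N Z K).ncard := by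
    unfold SU2
    have hu := (Set.ncard_union_le (ST N Z ∪ SE2 N Z ∪ SJ2 N Z K) (SQ N Z K)).trans
      (Nat.add_le_add_right ((Set.ncard_union_le _ _).trans
        (Nat.add_le_add_right (Set.ncard_union_le _ _) _)) _)
    exact_mod_cast hu
  have h6 := Pool.Agent.H31.AE.per_card (Sm N B) _ hfin (fun t ht => by
    rw [hZdef]
    exact hKK N B t hN hB ht.1 ht.2.1 ht.2.2)
  have h6' : ((Sm N B).ncard : ℝ) ≤ 6 * ((SU2 N Z K).ncard : ℝ) := by exact_mod_cast h6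
  have hNe : (N : ℝ) ^ ε = (N : ℝ) ^ (ε / 2) * (N : ℝ) ^ (ε / 2) := by
    rw [← Real.rpow_add hN0]; congr 1; ring
  have hC : 0 ≤ 6 * ((C1 + C2 + C3 + C4) * (N : ℝ) ^ (ε / 2)) := by positivity
  calc ((Sm N B).ncard : ℝ) ≤ 6 * ((SU2 N Z K).ncard : ℝ) := h6'
    _ ≤ 6 * (C1 * (N : ℝ) ^ (ε / 2) * Z + C2 * (N : ℝ) ^ (ε / 2) * Z +
        C3 * (N : ℝ) ^ (ε / 2) * Z + C4 * (N : ℝ) ^ (ε / 2) * Z) := by linarith
    _ = 6 * ((C1 + C2 + C3 + C4) * (N : ℝ) ^ (ε / 2)) * Z := by ring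
    _ ≤ 6 * ((C1 + C2 + C3 + C4) * (N : ℝ) ^ (ε / 2)) *
        (4 * (B ^ ((4 : ℝ) / 7) * (N : ℝ) ^ (ε / 2))) := mul_le_mul_of_nonneg_left hZle hC
    _ = 24 * (C1 + C2 + C3 + C4) * ((N : ℝ) ^ ε * B ^ ((4 : ℝ) / 7)) := by rw [hNe]; ring

end Pool.Agent.H23.AF
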