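import Pool.Agent.H23.AF.LP
import Pool.Agent.H23.AF.M2
import Pool.Agent.H23.AF.M2U
import Pool.Agent.H11.AF.A2
import Pool.Agent.H11.AF.R2
import Pool.Agent.H69.AF.B2
import Pool.Agent.H60.AF.CI
import Pool.Agent.H14.AF.D2
import Pool.Agent.H14.AF.G2
import Pool.Agent.H59.AF.F2
import Pool.Agent.H33.AF.HG
import Pool.Agent.H54.AF.I2
import Pool.Agent.H20.AF.JE
import Pool.Agent.H20.AF.JQ
import Pool.Agent.H20.AF.QL
import Pool.Agent.H48.AF.JJ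
import Pool.Agent.H48.AF.WE
import Pool.Agent.H17.AF.KC
import Pool.Agent.H10.AE.HC
import Pool.Agent.H48.AE.C
import Pool.Agent.H52.AE.HP
import Pool.Agent.H54.AE.B
import Pool.Agent.H58.AE.S
import Pool.Agent.H69.AE.J1
import Pool.Agent.H74.AE.A

/-! Assembly: the triples of small radical, exponent `4 / 7`. -/

set_option autoImplicit false

namespace Pool.Agent.H23.AF

open Pool.Agent.H38.AE

/-- The weighted energy bound. -/
theorem all_G2 : T_G2 :=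
  Pool.Agent.H14.AF.pf_G2 Pool.Agent.H74.AE.A.pf_A
    (Pool.Agent.H59.AF.pf_F2 Pool.Agent.H33.AF.pf_HG Pool.Agent.H60.AF.pf_CI
      (Pool.Agent.H14.AF.pf_D2 Pool.Agent.H54.AE.B.pf_B Pool.Agent.H48.AE.pf_C)
      Pool.Agent.H48.AF.pf_WE)
    Pool.Agent.H58.AE.pf_S Pool.Agent.H48.AF.pf_WE

/-- The curve bound. -/
theorem all_A2 : T_A2 :=
  Pool.Agent.H11.AF.pf_A2 (Pool.Agent.H11.AF.pf_R2 Pool.Agent.H52.AE.pf_HP)
    Pool.Agent.H69.AF.pf_B2 Pool.Agent.H10.AE.pf_HC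

theorem pf_all : T_M2U :=
  pf_M2U (pf_KCU pf_LP Pool.Agent.H54.AF.pf_I2 Pool.Agent.H48.AF.pf_WE)
    (Pool.Agent.H69.AE.pf_J1 Pool.Agent.H74.AE.A.pf_A)
    (Pool.Agent.H20.AF.pf_JE Pool.Agent.H74.AE.A.pf_A all_G2 Pool.Agent.H48.AF.pf_WE)
    (Pool.Agent.H48.AF.JJ.pf_JJ Pool.Agent.H74.AE.A.pf_A all_A2)
    (Pool.Agent.H20.AF.pf_JQ Pool.Agent.H74.AE.A.pf_A
      (Pool.Agent.H20.AF.pf_QL Pool.Agent.H48.AE.pf_C))

end Pool.Agent.H23.AF
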