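import Pool.Agent.H17.AF.KC

/-! The covering, uniformly in the exponent: the radical is at most `R` and smaller than the
maximum of the entries. -/

set_option autoImplicit false

namespace Pool.Agent.H23.AF

open Pool.Agent.H38.AE Pool.Agent.H17.AF

/-- KCU: covering of the triples of radical at most `R`. -/
def T_KCU : Prop := ∀ M : ℝ, 1 ≤ M → ∃ K : ℕ, ∀ (N : ℕ) (B : ℝ) (t : ℤ × ℤ × ℤ), 1 ≤ N → 1 ≤ B →
  t ∈ Tri N → (rad (t.1 * t.2.1 * t.2.2).natAbs : ℝ) ≤ B →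
  (rad (t.1 * t.2.1 * t.2.2).natAbs : ℝ) < (mx t : ℝ) →
  ∃ x y z : ℤ, (x, y, z) ∈ SU2 N (4 * (B ^ ((4 : ℝ) / 7) * (N : ℝ) ^ (4 / (7 * M)))) K ∧
      (t = (x, y, z) ∨ t = (x, z, y) ∨ t = (y, x, z) ∨ t = (y, z, x) ∨ t = (z, x, y) ∨
        t = (z, y, x))

theorem pf_KCU (hLP : T_LP) (hI : T_I2) (hW : T_WE) : T_KCU := by
  intro M hM
  refine ⟨⌈10 * M⌉₊ + 1, fun N B t hN hB htri hradB hradX => ?_⟩
  obtain ⟨x, y, w⟩ := t
  by_contra hno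
  have hM0 : 0 < M := by linarith
  have hN1 : (1 : ℝ) ≤ N := by exact_mod_cast hN
  obtain ⟨hmx, hmy, hmw⟩ := abs_le_mx x y w
  obtain ⟨X, hX⟩ : ∃ X : ℝ, X = (mx (x, y, w) : ℝ) := ⟨_, rfl⟩
  rw [← hX] at hmx hmy hmw hradX
  obtain ⟨R, hR⟩ : ∃ R : ℝ, R = (rad (x * y * w).natAbs : ℝ) := ⟨_, rfl⟩
  simp only at hradB hradX
  rw [← hR] at hradB hradX
  have hR1 : 1 ≤ R := by rw [hR]; exact one_le_rad_real _
  have hX1 : 1 < X := by linarith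
  have hXN : X ≤ N := by
    obtain ⟨-, -, -, -, -, -, -, h8, h9, h10⟩ := htri
    rw [hX]
    have : mx (x, y, w) ≤ (N : ℤ) := max_le h8 (max_le h9 h10)
    exact_mod_cast this
  obtain ⟨S, hS⟩ : ∃ S : ℝ, S = Real.log X := ⟨_, rfl⟩
  have hSX : Real.exp S = X := by rw [hS, Real.exp_log (by linarith)]
  have hS0 : 0 < S := by rw [hS]; exact Real.log_pos hX1
  obtain ⟨Λ, hΛ⟩ : ∃ Λ : ℝ, Λ = max (Real.log R) (S / M) := ⟨_, rfl⟩
  have hΛ0 : 0 < Λ := by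
    rw [hΛ]
    exact lt_max_of_lt_right (by positivity)
  have hSM' : S ≤ M * Λ := by
    have h1 : S / M ≤ Λ := by rw [hΛ]; exact le_max_right _ _
    rw [div_le_iff₀ hM0] at h1
    linarith
  have hΛS : Λ ≤ S := by
    rw [hΛ]
    refine max_le ?_ (div_le_self hS0.le hM)
    rw [hS]
    exact Real.log_le_log (by linarith) hradX.le
  have hRΛ : Real.log R ≤ Λ := by rw [hΛ]; exact le_max_left _ _
  obtain ⟨M', hM'⟩ : ∃ M' : ℝ, M' = S / Λ := ⟨_, rfl⟩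
  have hSM : S = M' * Λ := by rw [hM']; field_simp
  have hM'M : M' ≤ M := by
    rw [hM', div_le_iff₀ hΛ0]
    exact hSM'
  obtain ⟨z, hz⟩ : ∃ z : ℝ, z = 4 / 7 * Λ := ⟨_, rfl⟩
  have hZ : 4 * Real.exp z ≤ 4 * (B ^ ((4 : ℝ) / 7) * (N : ℝ) ^ (4 / (7 * M))) := by
    have hB1 : 1 ≤ B ^ ((4 : ℝ) / 7) := Real.one_le_rpow hB (by norm_num)
    have hN2 : 1 ≤ (N : ℝ) ^ (4 / (7 * M)) := Real.one_le_rpow hN1 (by positivity)
    rcases le_total (S / M) (Real.log R) with h | h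
    · have h0 : Λ = Real.log R := by rw [hΛ, max_eq_left h]
      have h1 : Real.exp z = R ^ ((4 : ℝ) / 7) := by
        rw [Real.rpow_def_of_pos (by linarith), hz, h0]
        congr 1
        ring
      have h2 : R ^ ((4 : ℝ) / 7) ≤ B ^ ((4 : ℝ) / 7) :=
        Real.rpow_le_rpow (by linarith) hradB (by norm_num)
      have h3 : B ^ ((4 : ℝ) / 7) ≤ B ^ ((4 : ℝ) / 7) * (N : ℝ) ^ (4 / (7 * M)) :=
        le_mul_of_one_le_right (by linarith) hN2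
      linarith
    · have h0 : Λ = S / M := by rw [hΛ, max_eq_right h]
      have h1 : Real.exp z = X ^ (4 / (7 * M)) := by
        rw [Real.rpow_def_of_pos (by linarith), ← hS, hz, h0]
        congr 1
        field_simp
      have h2 : X ^ (4 / (7 * M)) ≤ (N : ℝ) ^ (4 / (7 * M)) :=
        Real.rpow_le_rpow (by linarith) hXN (by positivity)
      have h3 : (N : ℝ) ^ (4 / (7 * M)) ≤ B ^ ((4 : ℝ) / 7) * (N : ℝ) ^ (4 / (7 * M)) :=
        le_mul_of_one_le_left (by linarith) hB1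
      linarith
  obtain ⟨hx0, hy0, hw0, -, -, -, -, -, -, -⟩ := id htri
  simp only at hx0 hy0 hw0
  have hlog : ∀ u : ℤ, u ≠ 0 → |(u : ℝ)| ≤ X → Real.log |(u : ℝ)| ≤ S := by
    intro u hu h
    rw [hS]
    exact Real.log_le_log (abs_pos.2 (by exact_mod_cast hu)) h
  obtain ⟨dx, q1, q2, p1, ex⟩ := ent_exists hI hx0 (hlog x hx0 hmx)
  obtain ⟨dy, q3, q4, p2, ey⟩ := ent_exists hI hy0 (hlog y hy0 hmy)
  obtain ⟨dw, q5, q6, p3, ew⟩ := ent_exists hI hw0 (hlog w hw0 hmw)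
  have hL : dx.r + dy.r + dw.r ≤ Λ := by
    rw [ex.hr, ey.hr, ew.hr, ← Real.log_mul (RR_pos x).ne' (RR_pos y).ne',
      ← Real.log_mul (mul_pos (RR_pos x) (RR_pos y)).ne' (RR_pos w).ne', rad_prod htri, ← hR]
    exact hRΛ
  have c1 : Cx N (⌈10 * M⌉₊ + 1) S z (4 * (B ^ ((4 : ℝ) / 7) * (N : ℝ) ^ (4 / (7 * M))))
      x y w dx dy dw :=
    ⟨htri, by rw [hSX, hX], hZ, hno, ⟨_, _, _, ex⟩, ⟨_, _, _, ey⟩, ⟨_, _, _, ew⟩⟩
  have c2 := c1.s12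
  have c3 := c1.s23
  have c4 := c2.s23
  have c5 := c3.s12
  have c6 := c4.s12
  have hK : ∀ e : ℕ, (1 ≤ e → (e : ℝ) ≤ 10 * M') → e ≤ ⌈10 * M⌉₊ + 1 := by
    intro e he
    rcases Nat.eq_zero_or_pos e with h | h
    · omega
    · have h0 : 10 * M' ≤ 10 * M := by linarith
      have h1 := ((he h).trans h0).trans (Nat.le_ceil (10 * M))
      have h2 : e ≤ ⌈10 * M⌉₊ := by exact_mod_cast h1
      omega
  have kx := hK dx.e fun h => c1.small hW hz hΛ0 hΛS hSM hL h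
  have ky := hK dy.e fun h => c2.small hW hz hΛ0 hΛS hSM (by linarith) h
  have kw := hK dw.e fun h => c5.small hW hz hΛ0 hΛS hSM (by linarith) h
  refine hLP S Λ dx dy dw hΛ0 hΛS ex.ok ey.ok ew.ok hL ?_
  rw [← hz]
  refine ⟨⟨c1.T, c3.T, c4.T⟩, ⟨c4.E hW, c3.E hW, c1.E hW⟩,
    ⟨c1.J kx ky, c2.J ky kx, c3.J kx kw, c5.J kw kx, c4.J ky kw, c6.J kw ky⟩,
    c1.Q kx, c3.Q kx, c4.Q ky⟩

end Pool.Agent.H23.AF
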