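import Pool.Agent.H23.AF.Ell

/-! Linear programming certificates for the covering, part 5 (shapes 045, 055, 222, 223, 224, 225). -/

set_option autoImplicit false
set_option linter.all false

namespace Pool.Agent.H23.AF

theorem p045 {S z Λ r1 a1 s1 b1 g1 t1 r2 a2 s2 b2 g2 t2 r3 a3 s3 b3 g3 t3 : ℝ}
    (hz : 7 * z = 4 * Λ) (hS : Λ ≤ S) (hL : r1 + r2 + r3 ≤ Λ)
    (na1 : 0 ≤ a1) (ns1 : 0 ≤ s1) (nb1 : 0 ≤ b1) (ng1 : 0 ≤ g1) (nt1 : 0 ≤ t1)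
    (hr1 : r1 = a1 + b1) (hm1 : s1 + g1 + t1 = S) (hb1 : b1 ≤ g1) (ha1 : a1 ≤ s1)
    (hu1 : s1 ≤ g1) (hg1 : g1 ≤ 2 * s1)
    (na2 : 0 ≤ a2) (ns2 : 0 ≤ s2) (nb2 : 0 ≤ b2) (ng2 : 0 ≤ g2) (nt2 : 0 ≤ t2)
    (hr2 : r2 = a2 + b2) (hm2 : s2 + g2 + t2 = S) (hb2 : b2 ≤ g2) (ha2 : a2 ≤ s2)
    (he2 : s2 = 4 * a2) (hg2 : 2 * g2 ≤ s2)
    (na3 : 0 ≤ a3) (ns3 : 0 ≤ s3) (nb3 : 0 ≤ b3) (ng3 : 0 ≤ g3) (nt3 : 0 ≤ t3)
    (hr3 : r3 = a3 + b3) (hm3 : s3 + g3 + t3 = S) (hb3 : b3 ≤ g3) (ha3 : a3 ≤ s3)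
    (he3 : 5 * a3 ≤ s3) (hg3 : 2 * g3 ≤ s3)
    (hT1 : z < r2 + r3)
    (hT2 : z < r3 + r1)
    (hT3 : z < r1 + r2)
    (hE1a : z < a1 + (r2 + r3) / 2 + (ell r2 (s1 + t1) + ell r3 (s1 + t1)) / 2)
    (hE1b : z < b1 + (r2 + r3) / 2 + (ell r2 (g1 + t1) + ell r3 (g1 + t1)) / 2)
    (hE1c : z < (r2 + r3) / 2 + (ell r2 t1 + ell r3 t1) / 2)
    (hE2a : z < a2 + (r3 + r1) / 2 + (ell r3 (s2 + t2) + ell r1 (s2 + t2)) / 2)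
    (hE2b : z < b2 + (r3 + r1) / 2 + (ell r3 (g2 + t2) + ell r1 (g2 + t2)) / 2)
    (hE2c : z < (r3 + r1) / 2 + (ell r3 t2 + ell r1 t2) / 2)
    (hE3a : z < a3 + (r1 + r2) / 2 + (ell r1 (s3 + t3) + ell r2 (s3 + t3)) / 2)
    (hE3b : z < b3 + (r1 + r2) / 2 + (ell r1 (g3 + t3) + ell r2 (g3 + t3)) / 2)
    (hE3c : z < (r1 + r2) / 2 + (ell r1 t3 + ell r2 t3) / 2)
    (hJ1a : z < r2 + r3 + r1 - a2 - a3 + a2 / 5)
    (hJ1b : z < r2 + r3 + r1 - a2 - a3 + a3 / 4)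
    : False := by
  have nr1 : 0 ≤ r1 := by linarith only [hr1, na1, nb1]
  have qs1 : 0 ≤ s1 + t1 := add_nonneg ns1 nt1
  have qg1 : 0 ≤ g1 + t1 := add_nonneg ng1 nt1
  have nr2 : 0 ≤ r2 := by linarith only [hr2, na2, nb2]
  have qs2 : 0 ≤ s2 + t2 := add_nonneg ns2 nt2
  have qg2 : 0 ≤ g2 + t2 := add_nonneg ng2 nt2
  have nr3 : 0 ≤ r3 := by linarith only [hr3, na3, nb3]
  have qs3 : 0 ≤ s3 + t3 := add_nonneg ns3 nt3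
  have qg3 : 0 ≤ g3 + t3 := add_nonneg ng3 nt3
  have nS : 0 ≤ S := by linarith only [hm1, ns1, ng1, nt1]
  have nL : 0 ≤ Λ := by linarith only [hL, nr1, nr2, nr3]
  rcases le_total r2 (g1 + t1) with h4_0x | h4_0x
  · rcases le_total r3 (g1 + t1) with h4_1x | h4_1x
    · rcases le_total r3 (s2 + t2) with h6_0x | h6_0x
      · rcases le_total r1 (s2 + t2) with h6_1x | h6_1x
        · rcases le_total r1 (s3 + t3) with h9_0x | h9_0x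
          · rcases le_total r2 (s3 + t3) with h9_1x | h9_1x
            · rcases le_total (2 * r3) (s2 + t2) with h6_0y | h6_0y
              · rcases le_total r3 (s1 + t1) with h3_1x | h3_1x
                · rcases le_total r2 (s1 + t1) with h3_0x | h3_0x
                  · rcases le_total (2 * r3) (g1 + t1) with h4_1y | h4_1y
                    · linarith only [hL, hr1, hE1a, e1 nr2 h3_0x, e1 nr3 h3_1x, hE1b, e1 nr2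
                        h4_0x, e3 nr3 h4_1y, hE2c, e0 nr3 (nt2), e0 nr1 (nt2), na1, nL, hz]
                    · rcases le_total (2 * r2) (s1 + t1) with h3_0y | h3_0y
                      · linarith only [hL, hr1, hE1a, e3 nr2 h3_0y, e1 nr3 h3_1x, h4_1x, hE1b, e1
                          nr2 h4_0x, e4 nr3 h4_1x h4_1y, hE3c, e0 nr1 (nt3), e0 nr2 (nt3), nb1,
                          nL, hz]
                      · linarith only [hL, hr1, hm1, hm3, he3, hE1a, e4 nr2 h3_0x h3_0y, e1 nr3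
                          h3_1x, hE1b, e1 nr2 h4_0x, e4 nr3 h4_1x h4_1y, hE2c, e0 nr3 (nt2), e0
                          nr1 (nt2), hE3a, e1 nr1 h9_0x, e1 nr2 h9_1x, nt3, ng3, nt1, nL, hz]
                  · rcases le_total (2 * r2) (g1 + t1) with h4_0y | h4_0y
                    · linarith only [hL, hr1, hg1, hE1a, e2 (qs1) h3_0x, e1 nr3 h3_1x, h4_0y,
                        hE1b, e3 nr2 h4_0y, e1 nr3 h4_1x, hE3c, e0 nr1 (nt3), e0 nr2 (nt3), na1,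
                        nt1, nL, hz]
                    · linarith only [hL, hr1, hm1, hr2, hm2, hb2, he2, h3_1x, hE1a, e2 (qs1)
                        h3_0x, e1 nr3 h3_1x, h4_0y, hE1b, e4 nr2 h4_0x h4_0y, e1 nr3 h4_1x, hE2a,
                        e3 nr3 h6_0y, e1 nr1 h6_1x, hE2c, e0 nr3 (nt2), e0 nr1 (nt2), nt1, nt2,
                        nL, hz]
                · linarith only [hS, hL, hm1, hg1, hr3, hm3, hb3, he3, h3_1x, hE3a, e1 nr1 h9_0x,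
                    e1 nr2 h9_1x, nt3, nt1, nL, hz]
              · linarith only [hL, hm2, he2, hg2, hr3, hm3, hb3, he3, hE1c, e0 nr2 (nt1), e0 nr3
                  (nt1), h6_0y, hE2a, e4 nr3 h6_0x h6_0y, e1 nr1 h6_1x, hE3a, e1 nr1 h9_0x, e1 nr2
                  h9_1x, nt3, nt2, nL, hz]
            · linarith only [hr2, hm2, hb2, he2, hg2, hm3, hg3, h9_0x, h9_1x, hE3c, e0 nr1 (nt3),
                e0 nr2 (nt3), nt3, nt2, nL, hz]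
          · linarith only [hL, hr2, hm2, hb2, he2, hr3, hm3, hb3, he3, hg3, hE1c, e0 nr2 (nt1), e0
              nr3 (nt1), hE2a, e1 nr3 h6_0x, e1 nr1 h6_1x, h9_0x, nt3, nt2, nL, hz]
        · linarith only [hL, hm2, he2, hg2, hr3, hm3, hb3, he3, hg3, hE1c, e0 nr2 (nt1), e0 nr3
            (nt1), h6_1x, hE2a, e1 nr3 h6_0x, e2 (qs2) h6_1x, nt3, nt2, nL, hz]
      · linarith only [hr2, hm2, hb2, he2, hg2, hr3, hm3, hb3, he3, hg3, hE1c, e0 nr2 (nt1), e0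
          nr3 (nt1), h6_0x, nt3, nt2, nL, hz]
    · linarith only [hm1, hu1, hr3, hm3, hb3, he3, hg3, h4_0x, h4_1x, hE1c, e0 nr2 (nt1), e0 nr3
        (nt1), nt3, nt1, nL, hz]
  · linarith only [hS, hL, hm1, hu1, h4_0x, hE2c, e0 nr3 (nt2), e0 nr1 (nt2), nt1, nL, hz]

theorem p055 {S z Λ r1 a1 s1 b1 g1 t1 r2 a2 s2 b2 g2 t2 r3 a3 s3 b3 g3 t3 : ℝ}
    (hz : 7 * z = 4 * Λ) (hS : Λ ≤ S) (hL : r1 + r2 + r3 ≤ Λ)
    (na1 : 0 ≤ a1) (ns1 : 0 ≤ s1) (nb1 : 0 ≤ b1) (ng1 : 0 ≤ g1) (nt1 : 0 ≤ t1)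
    (hr1 : r1 = a1 + b1) (hm1 : s1 + g1 + t1 = S) (hb1 : b1 ≤ g1) (ha1 : a1 ≤ s1)
    (hu1 : s1 ≤ g1) (hg1 : g1 ≤ 2 * s1)
    (na2 : 0 ≤ a2) (ns2 : 0 ≤ s2) (nb2 : 0 ≤ b2) (ng2 : 0 ≤ g2) (nt2 : 0 ≤ t2)
    (hr2 : r2 = a2 + b2) (hm2 : s2 + g2 + t2 = S) (hb2 : b2 ≤ g2) (ha2 : a2 ≤ s2)
    (he2 : 5 * a2 ≤ s2) (hg2 : 2 * g2 ≤ s2)
    (na3 : 0 ≤ a3) (ns3 : 0 ≤ s3) (nb3 : 0 ≤ b3) (ng3 : 0 ≤ g3) (nt3 : 0 ≤ t3)
    (hr3 : r3 = a3 + b3) (hm3 : s3 + g3 + t3 = S) (hb3 : b3 ≤ g3) (ha3 : a3 ≤ s3)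
    (he3 : 5 * a3 ≤ s3) (hg3 : 2 * g3 ≤ s3)
    (hT1 : z < r2 + r3)
    (hT2 : z < r3 + r1)
    (hT3 : z < r1 + r2)
    (hE1a : z < a1 + (r2 + r3) / 2 + (ell r2 (s1 + t1) + ell r3 (s1 + t1)) / 2)
    (hE1b : z < b1 + (r2 + r3) / 2 + (ell r2 (g1 + t1) + ell r3 (g1 + t1)) / 2)
    (hE1c : z < (r2 + r3) / 2 + (ell r2 t1 + ell r3 t1) / 2)
    (hE2a : z < a2 + (r3 + r1) / 2 + (ell r3 (s2 + t2) + ell r1 (s2 + t2)) / 2)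
    (hE2b : z < b2 + (r3 + r1) / 2 + (ell r3 (g2 + t2) + ell r1 (g2 + t2)) / 2)
    (hE2c : z < (r3 + r1) / 2 + (ell r3 t2 + ell r1 t2) / 2)
    (hE3a : z < a3 + (r1 + r2) / 2 + (ell r1 (s3 + t3) + ell r2 (s3 + t3)) / 2)
    (hE3b : z < b3 + (r1 + r2) / 2 + (ell r1 (g3 + t3) + ell r2 (g3 + t3)) / 2)
    (hE3c : z < (r1 + r2) / 2 + (ell r1 t3 + ell r2 t3) / 2)
    (hJ1a : z < r2 + r3 + r1 - a2 - a3 + a2 / 5)
    (hJ1b : z < r2 + r3 + r1 - a2 - a3 + a3 / 5)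
    : False := by
  have nr1 : 0 ≤ r1 := by linarith only [hr1, na1, nb1]
  have qs1 : 0 ≤ s1 + t1 := add_nonneg ns1 nt1
  have qg1 : 0 ≤ g1 + t1 := add_nonneg ng1 nt1
  have nr2 : 0 ≤ r2 := by linarith only [hr2, na2, nb2]
  have qs2 : 0 ≤ s2 + t2 := add_nonneg ns2 nt2
  have qg2 : 0 ≤ g2 + t2 := add_nonneg ng2 nt2
  have nr3 : 0 ≤ r3 := by linarith only [hr3, na3, nb3]
  have qs3 : 0 ≤ s3 + t3 := add_nonneg ns3 nt3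
  have qg3 : 0 ≤ g3 + t3 := add_nonneg ng3 nt3
  have nS : 0 ≤ S := by linarith only [hm1, ns1, ng1, nt1]
  have nL : 0 ≤ Λ := by linarith only [hL, nr1, nr2, nr3]
  rcases le_total r2 (g1 + t1) with h4_0x | h4_0x
  · rcases le_total r3 (s2 + t2) with h6_0x | h6_0x
    · rcases le_total r1 (s3 + t3) with h9_0x | h9_0x
      · rcases le_total r1 (s2 + t2) with h6_1x | h6_1x
        · rcases le_total r2 (s3 + t3) with h9_1x | h9_1x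
          · rcases le_total (2 * r2) (s3 + t3) with h9_1y | h9_1y
            · rcases le_total (2 * r3) (s2 + t2) with h6_0y | h6_0y
              · rcases le_total r3 (g1 + t1) with h4_1x | h4_1x
                · rcases le_total r2 (s1 + t1) with h3_0x | h3_0x
                  · rcases le_total r3 (s1 + t1) with h3_1x | h3_1x
                    · rcases le_total (2 * r2) (g1 + t1) with h4_0y | h4_0y
                      · linarith only [hL, hr1, hE1a, e1 nr2 h3_0x, e1 nr3 h3_1x, hE1b, e3 nr2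
                          h4_0y, e1 nr3 h4_1x, hE3c, e0 nr1 (nt3), e0 nr2 (nt3), na1, nL, hz]
                      · linarith only [hL, hr1, hm1, hu1, hm3, he3, hE1a, e1 nr2 h3_0x, e1 nr3
                          h3_1x, hE1b, e4 nr2 h4_0x h4_0y, e1 nr3 h4_1x, hE2a, e3 nr3 h6_0y, e1
                          nr1 h6_1x, hE2c, e0 nr3 (nt2), e0 nr1 (nt2), hE3a, e1 nr1 h9_0x, e3 nr2
                          h9_1y, hJ1b, nt3, ng3, nt1, nL, hz]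
                    · linarith only [hL, hm1, hg1, hr3, hm3, hb3, he3, h3_1x, h9_0x, hE3a, e1 nr1
                        h9_0x, e3 nr2 h9_1y, nt3, nr2, nt1, nL, hz]
                  · linarith only [hL, hm1, hg1, hr2, hm2, hb2, he2, h3_0x, h6_1x, hE2a, e3 nr3
                      h6_0y, e1 nr1 h6_1x, nr3, nt1, nt2, nL, hz]
                · linarith only [hm1, hu1, hr3, hm3, hb3, he3, hg3, h4_1x, h9_0x, h9_1y, hJ1b,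
                    nt3, na2, nt1, nL, hz]
              · linarith only [hL, hm2, hg2, hr3, hm3, hb3, he3, h6_0y, h9_0x, hE3a, e1 nr1 h9_0x,
                  e3 nr2 h9_1y, nt3, nr2, nt2, nL, hz]
            · linarith only [hL, hr2, hm2, hb2, he2, hm3, he3, hg3, hE1c, e0 nr2 (nt1), e0 nr3
                (nt1), hE2a, e1 nr3 h6_0x, e1 nr1 h6_1x, h9_1y, hE3a, e1 nr1 h9_0x, e4 nr2 h9_1x
                h9_1y, nt3, nt2, nL, hz]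
          · linarith only [hr2, hm2, hb2, he2, hg2, hm3, hg3, h9_0x, h9_1x, hE3c, e0 nr1 (nt3), e0
              nr2 (nt3), nt3, nt2, nL, hz]
        · linarith only [hL, hm2, he2, hg2, hr3, hm3, hb3, he3, hE1c, e0 nr2 (nt1), e0 nr3 (nt1),
            hE2a, e1 nr3 h6_0x, e2 (qs2) h6_1x, hE3a, e1 nr1 h9_0x, e0 nr2 (qs3), nt3, ns3, nt2,
            nL, hz]
      · linarith only [hS, hL, hm3, hg3, hE1c, e0 nr2 (nt1), e0 nr3 (nt1), h9_0x, nt3, nL, hz]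
    · linarith only [hr2, hm2, hb2, he2, hg2, hr3, hm3, hb3, he3, hg3, hE1c, e0 nr2 (nt1), e0 nr3
        (nt1), h6_0x, nt3, nt2, nL, hz]
  · linarith only [hm1, hu1, hr2, hm2, hb2, he2, hg2, hr3, hm3, hb3, he3, h4_0x, hE1c, e0 nr2
      (nt1), e0 nr3 (nt1), nt3, ns3, nt1, nt2, nL, hz]

theorem p222 {S z Λ r1 a1 s1 b1 g1 t1 r2 a2 s2 b2 g2 t2 r3 a3 s3 b3 g3 t3 : ℝ}
    (hz : 7 * z = 4 * Λ) (hS : Λ ≤ S) (hL : r1 + r2 + r3 ≤ Λ)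
    (na1 : 0 ≤ a1) (ns1 : 0 ≤ s1) (nb1 : 0 ≤ b1) (ng1 : 0 ≤ g1) (nt1 : 0 ≤ t1)
    (hr1 : r1 = a1 + b1) (hm1 : s1 + g1 + t1 = S) (hb1 : b1 ≤ g1) (ha1 : a1 ≤ s1)
    (he1 : s1 = 2 * a1) (hg1 : 2 * g1 ≤ s1)
    (na2 : 0 ≤ a2) (ns2 : 0 ≤ s2) (nb2 : 0 ≤ b2) (ng2 : 0 ≤ g2) (nt2 : 0 ≤ t2)
    (hr2 : r2 = a2 + b2) (hm2 : s2 + g2 + t2 = S) (hb2 : b2 ≤ g2) (ha2 : a2 ≤ s2)
    (he2 : s2 = 2 * a2) (hg2 : 2 * g2 ≤ s2)
    (na3 : 0 ≤ a3) (ns3 : 0 ≤ s3) (nb3 : 0 ≤ b3) (ng3 : 0 ≤ g3) (nt3 : 0 ≤ t3)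
    (hr3 : r3 = a3 + b3) (hm3 : s3 + g3 + t3 = S) (hb3 : b3 ≤ g3) (ha3 : a3 ≤ s3)
    (he3 : s3 = 2 * a3) (hg3 : 2 * g3 ≤ s3)
    (hT1 : z < r2 + r3)
    (hT2 : z < r3 + r1)
    (hT3 : z < r1 + r2)
    (hE1a : z < a1 + (r2 + r3) / 2 + (ell r2 (s1 + t1) + ell r3 (s1 + t1)) / 2)
    (hE1b : z < b1 + (r2 + r3) / 2 + (ell r2 (g1 + t1) + ell r3 (g1 + t1)) / 2)
    (hE1c : z < (r2 + r3) / 2 + (ell r2 t1 + ell r3 t1) / 2)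
    (hE2a : z < a2 + (r3 + r1) / 2 + (ell r3 (s2 + t2) + ell r1 (s2 + t2)) / 2)
    (hE2b : z < b2 + (r3 + r1) / 2 + (ell r3 (g2 + t2) + ell r1 (g2 + t2)) / 2)
    (hE2c : z < (r3 + r1) / 2 + (ell r3 t2 + ell r1 t2) / 2)
    (hE3a : z < a3 + (r1 + r2) / 2 + (ell r1 (s3 + t3) + ell r2 (s3 + t3)) / 2)
    (hE3b : z < b3 + (r1 + r2) / 2 + (ell r1 (g3 + t3) + ell r2 (g3 + t3)) / 2)
    (hE3c : z < (r1 + r2) / 2 + (ell r1 t3 + ell r2 t3) / 2)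
    (hQ1 : z < r2 + r3 + r1 - a2 - a3)
    (hQ2 : z < r3 + r1 + r2 - a3 - a1)
    (hQ3 : z < r1 + r2 + r3 - a1 - a2)
    : False := by
  have nr1 : 0 ≤ r1 := by linarith only [hr1, na1, nb1]
  have qs1 : 0 ≤ s1 + t1 := add_nonneg ns1 nt1
  have qg1 : 0 ≤ g1 + t1 := add_nonneg ng1 nt1
  have nr2 : 0 ≤ r2 := by linarith only [hr2, na2, nb2]
  have qs2 : 0 ≤ s2 + t2 := add_nonneg ns2 nt2
  have qg2 : 0 ≤ g2 + t2 := add_nonneg ng2 nt2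
  have nr3 : 0 ≤ r3 := by linarith only [hr3, na3, nb3]
  have qs3 : 0 ≤ s3 + t3 := add_nonneg ns3 nt3
  have qg3 : 0 ≤ g3 + t3 := add_nonneg ng3 nt3
  have nS : 0 ≤ S := by linarith only [hm1, ns1, ng1, nt1]
  have nL : 0 ≤ Λ := by linarith only [hL, nr1, nr2, nr3]
  rcases le_total r3 (s1 + t1) with h3_1x | h3_1x
  · rcases le_total r2 (s1 + t1) with h3_0x | h3_0x
    · rcases le_total r3 (g1 + t1) with h4_1x | h4_1x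
      · rcases le_total r2 (g1 + t1) with h4_0x | h4_0x
        · rcases le_total (2 * r3) (s1 + t1) with h3_1y | h3_1y
          · linarith only [hL, hr1, hE1a, e1 nr2 h3_0x, e3 nr3 h3_1y, hE1b, e1 nr2 h4_0x, e1 nr3
              h4_1x, hE2c, e0 nr3 (nt2), e0 nr1 (nt2), nb1, nL, hz]
          · linarith only [hS, hL, hr1, hm1, hg1, hE1a, e1 nr2 h3_0x, e4 nr3 h3_1x h3_1y, h4_1x,
              hE1b, e1 nr2 h4_0x, e1 nr3 h4_1x, hE2c, e0 nr3 (nt2), e0 nr1 (nt2), hE3c, e0 nr1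
              (nt3), e0 nr2 (nt3), nL, hz]
        · linarith only [hS, hL, hm1, he1, hr2, hb2, he2, hg2, h4_0x, hQ3, nL, hz]
      · linarith only [hS, hL, hm1, he1, hr3, hb3, he3, hg3, h4_1x, hQ2, nL, hz]
    · linarith only [hS, hL, hm1, hg1, h3_0x, hE2c, e0 nr3 (nt2), e0 nr1 (nt2), nt1, nL, hz]
  · linarith only [hS, hL, hm1, hg1, h3_1x, hE3c, e0 nr1 (nt3), e0 nr2 (nt3), nt1, nL, hz]

theorem p223 {S z Λ r1 a1 s1 b1 g1 t1 r2 a2 s2 b2 g2 t2 r3 a3 s3 b3 g3 t3 : ℝ}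
    (hz : 7 * z = 4 * Λ) (hS : Λ ≤ S) (hL : r1 + r2 + r3 ≤ Λ)
    (na1 : 0 ≤ a1) (ns1 : 0 ≤ s1) (nb1 : 0 ≤ b1) (ng1 : 0 ≤ g1) (nt1 : 0 ≤ t1)
    (hr1 : r1 = a1 + b1) (hm1 : s1 + g1 + t1 = S) (hb1 : b1 ≤ g1) (ha1 : a1 ≤ s1)
    (he1 : s1 = 2 * a1) (hg1 : 2 * g1 ≤ s1)
    (na2 : 0 ≤ a2) (ns2 : 0 ≤ s2) (nb2 : 0 ≤ b2) (ng2 : 0 ≤ g2) (nt2 : 0 ≤ t2)
    (hr2 : r2 = a2 + b2) (hm2 : s2 + g2 + t2 = S) (hb2 : b2 ≤ g2) (ha2 : a2 ≤ s2)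
    (he2 : s2 = 2 * a2) (hg2 : 2 * g2 ≤ s2)
    (na3 : 0 ≤ a3) (ns3 : 0 ≤ s3) (nb3 : 0 ≤ b3) (ng3 : 0 ≤ g3) (nt3 : 0 ≤ t3)
    (hr3 : r3 = a3 + b3) (hm3 : s3 + g3 + t3 = S) (hb3 : b3 ≤ g3) (ha3 : a3 ≤ s3)
    (he3 : s3 = 3 * a3) (hg3 : 2 * g3 ≤ s3)
    (hT1 : z < r2 + r3)
    (hT2 : z < r3 + r1)
    (hT3 : z < r1 + r2)
    (hE1a : z < a1 + (r2 + r3) / 2 + (ell r2 (s1 + t1) + ell r3 (s1 + t1)) / 2)
    (hE1b : z < b1 + (r2 + r3) / 2 + (ell r2 (g1 + t1) + ell r3 (g1 + t1)) / 2)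
    (hE1c : z < (r2 + r3) / 2 + (ell r2 t1 + ell r3 t1) / 2)
    (hE2a : z < a2 + (r3 + r1) / 2 + (ell r3 (s2 + t2) + ell r1 (s2 + t2)) / 2)
    (hE2b : z < b2 + (r3 + r1) / 2 + (ell r3 (g2 + t2) + ell r1 (g2 + t2)) / 2)
    (hE2c : z < (r3 + r1) / 2 + (ell r3 t2 + ell r1 t2) / 2)
    (hE3a : z < a3 + (r1 + r2) / 2 + (ell r1 (s3 + t3) + ell r2 (s3 + t3)) / 2)
    (hE3b : z < b3 + (r1 + r2) / 2 + (ell r1 (g3 + t3) + ell r2 (g3 + t3)) / 2)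
    (hE3c : z < (r1 + r2) / 2 + (ell r1 t3 + ell r2 t3) / 2)
    (hJ1a : z < r2 + r3 + r1 - a2 - a3 + a2 / 3)
    (hJ1b : z < r2 + r3 + r1 - a2 - a3 + a3 / 2)
    (hJ2a : z < r3 + r1 + r2 - a3 - a1 + a3 / 2)
    (hJ2b : z < r3 + r1 + r2 - a3 - a1 + a1 / 3)
    (hQ3 : z < r1 + r2 + r3 - a1 - a2)
    : False := by
  have nr1 : 0 ≤ r1 := by linarith only [hr1, na1, nb1]
  have qs1 : 0 ≤ s1 + t1 := add_nonneg ns1 nt1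
  have qg1 : 0 ≤ g1 + t1 := add_nonneg ng1 nt1
  have nr2 : 0 ≤ r2 := by linarith only [hr2, na2, nb2]
  have qs2 : 0 ≤ s2 + t2 := add_nonneg ns2 nt2
  have qg2 : 0 ≤ g2 + t2 := add_nonneg ng2 nt2
  have nr3 : 0 ≤ r3 := by linarith only [hr3, na3, nb3]
  have qs3 : 0 ≤ s3 + t3 := add_nonneg ns3 nt3
  have qg3 : 0 ≤ g3 + t3 := add_nonneg ng3 nt3
  have nS : 0 ≤ S := by linarith only [hm1, ns1, ng1, nt1]
  have nL : 0 ≤ Λ := by linarith only [hL, nr1, nr2, nr3]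
  rcases le_total r3 (g2 + t2) with h7_0x | h7_0x
  · rcases le_total r1 (g2 + t2) with h7_1x | h7_1x
    · rcases le_total (2 * r1) (g2 + t2) with h7_1y | h7_1y
      · linarith only [hL, hr2, hb2, he2, hg2, hE2b, e1 nr3 h7_0x, e3 nr1 h7_1y, hE3c, e0 nr1
          (nt3), e0 nr2 (nt3), nL, hz]
      · linarith only [hS, hL, hr2, hm2, hb2, he2, hg2, hE1c, e0 nr2 (nt1), e0 nr3 (nt1), hE2b, e1
          nr3 h7_0x, e4 nr1 h7_1x h7_1y, nL, hz]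
    · linarith only [hS, hL, hr2, hm2, he2, hE1c, e0 nr2 (nt1), e0 nr3 (nt1), hE2b, e1 nr3 h7_0x,
        e2 (qg2) h7_1x, hE2c, e0 nr3 (nt2), e0 nr1 (nt2), ns2, nL, hz]
  · linarith only [hS, hL, hr2, hm2, he2, h7_0x, hE2b, e2 (qg2) h7_0x, e0 nr1 (qg2), hE3c, e0 nr1
      (nt3), e0 nr2 (nt3), nL, hz]

theorem p224 {S z Λ r1 a1 s1 b1 g1 t1 r2 a2 s2 b2 g2 t2 r3 a3 s3 b3 g3 t3 : ℝ}
    (hz : 7 * z = 4 * Λ) (hS : Λ ≤ S) (hL : r1 + r2 + r3 ≤ Λ)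
    (na1 : 0 ≤ a1) (ns1 : 0 ≤ s1) (nb1 : 0 ≤ b1) (ng1 : 0 ≤ g1) (nt1 : 0 ≤ t1)
    (hr1 : r1 = a1 + b1) (hm1 : s1 + g1 + t1 = S) (hb1 : b1 ≤ g1) (ha1 : a1 ≤ s1)
    (he1 : s1 = 2 * a1) (hg1 : 2 * g1 ≤ s1)
    (na2 : 0 ≤ a2) (ns2 : 0 ≤ s2) (nb2 : 0 ≤ b2) (ng2 : 0 ≤ g2) (nt2 : 0 ≤ t2)
    (hr2 : r2 = a2 + b2) (hm2 : s2 + g2 + t2 = S) (hb2 : b2 ≤ g2) (ha2 : a2 ≤ s2)
    (he2 : s2 = 2 * a2) (hg2 : 2 * g2 ≤ s2)
    (na3 : 0 ≤ a3) (ns3 : 0 ≤ s3) (nb3 : 0 ≤ b3) (ng3 : 0 ≤ g3) (nt3 : 0 ≤ t3)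
    (hr3 : r3 = a3 + b3) (hm3 : s3 + g3 + t3 = S) (hb3 : b3 ≤ g3) (ha3 : a3 ≤ s3)
    (he3 : s3 = 4 * a3) (hg3 : 2 * g3 ≤ s3)
    (hT1 : z < r2 + r3)
    (hT2 : z < r3 + r1)
    (hT3 : z < r1 + r2)
    (hE1a : z < a1 + (r2 + r3) / 2 + (ell r2 (s1 + t1) + ell r3 (s1 + t1)) / 2)
    (hE1b : z < b1 + (r2 + r3) / 2 + (ell r2 (g1 + t1) + ell r3 (g1 + t1)) / 2)
    (hE1c : z < (r2 + r3) / 2 + (ell r2 t1 + ell r3 t1) / 2)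
    (hE2a : z < a2 + (r3 + r1) / 2 + (ell r3 (s2 + t2) + ell r1 (s2 + t2)) / 2)
    (hE2b : z < b2 + (r3 + r1) / 2 + (ell r3 (g2 + t2) + ell r1 (g2 + t2)) / 2)
    (hE2c : z < (r3 + r1) / 2 + (ell r3 t2 + ell r1 t2) / 2)
    (hE3a : z < a3 + (r1 + r2) / 2 + (ell r1 (s3 + t3) + ell r2 (s3 + t3)) / 2)
    (hE3b : z < b3 + (r1 + r2) / 2 + (ell r1 (g3 + t3) + ell r2 (g3 + t3)) / 2)
    (hE3c : z < (r1 + r2) / 2 + (ell r1 t3 + ell r2 t3) / 2)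
    (hQ1 : z < r2 + r3 + r1 - a2 - a3)
    (hQ2 : z < r3 + r1 + r2 - a3 - a1)
    (hQ3 : z < r1 + r2 + r3 - a1 - a2)
    : False := by
  have nr1 : 0 ≤ r1 := by linarith only [hr1, na1, nb1]
  have qs1 : 0 ≤ s1 + t1 := add_nonneg ns1 nt1
  have qg1 : 0 ≤ g1 + t1 := add_nonneg ng1 nt1
  have nr2 : 0 ≤ r2 := by linarith only [hr2, na2, nb2]
  have qs2 : 0 ≤ s2 + t2 := add_nonneg ns2 nt2
  have qg2 : 0 ≤ g2 + t2 := add_nonneg ng2 nt2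
  have nr3 : 0 ≤ r3 := by linarith only [hr3, na3, nb3]
  have qs3 : 0 ≤ s3 + t3 := add_nonneg ns3 nt3
  have qg3 : 0 ≤ g3 + t3 := add_nonneg ng3 nt3
  have nS : 0 ≤ S := by linarith only [hm1, ns1, ng1, nt1]
  have nL : 0 ≤ Λ := by linarith only [hL, nr1, nr2, nr3]
  rcases le_total r3 (s1 + t1) with h3_1x | h3_1x
  · rcases le_total r2 (s1 + t1) with h3_0x | h3_0x
    · rcases le_total r3 (g1 + t1) with h4_1x | h4_1x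
      · rcases le_total r2 (g1 + t1) with h4_0x | h4_0x
        · rcases le_total (2 * r2) (s1 + t1) with h3_0y | h3_0y
          · linarith only [hL, hr1, hE1a, e3 nr2 h3_0y, e1 nr3 h3_1x, hE1b, e1 nr2 h4_0x, e1 nr3
              h4_1x, hE3c, e0 nr1 (nt3), e0 nr2 (nt3), nb1, nL, hz]
          · linarith only [hL, hr1, hm1, he1, hg1, hr3, hm3, hb3, he3, hg3, hE1a, e4 nr2 h3_0x
              h3_0y, e1 nr3 h3_1x, h4_1x, hE1b, e1 nr2 h4_0x, e1 nr3 h4_1x, hE2c, e0 nr3 (nt2), e0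
              nr1 (nt2), nt3, nL, hz]
        · linarith only [hS, hL, hm1, he1, hr2, hb2, he2, hg2, h4_0x, hQ3, nL, hz]
      · linarith only [hS, hL, hm1, he1, hr3, hb3, he3, hg3, h4_1x, hE3c, e0 nr1 (nt3), e0 nr2
          (nt3), hQ2, nL, hz]
    · linarith only [hS, hL, hm1, hg1, h3_0x, hE2c, e0 nr3 (nt2), e0 nr1 (nt2), nt1, nL, hz]
  · linarith only [hm1, hg1, hr2, hm2, hb2, he2, hr3, hm3, hb3, he3, hg3, h3_1x, hE1c, e0 nr2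
      (nt1), e0 nr3 (nt1), nt3, ns2, nt1, nt2, nL, hz]

theorem p225 {S z Λ r1 a1 s1 b1 g1 t1 r2 a2 s2 b2 g2 t2 r3 a3 s3 b3 g3 t3 : ℝ}
    (hz : 7 * z = 4 * Λ) (hS : Λ ≤ S) (hL : r1 + r2 + r3 ≤ Λ)
    (na1 : 0 ≤ a1) (ns1 : 0 ≤ s1) (nb1 : 0 ≤ b1) (ng1 : 0 ≤ g1) (nt1 : 0 ≤ t1)
    (hr1 : r1 = a1 + b1) (hm1 : s1 + g1 + t1 = S) (hb1 : b1 ≤ g1) (ha1 : a1 ≤ s1)
    (he1 : s1 = 2 * a1) (hg1 : 2 * g1 ≤ s1)
    (na2 : 0 ≤ a2) (ns2 : 0 ≤ s2) (nb2 : 0 ≤ b2) (ng2 : 0 ≤ g2) (nt2 : 0 ≤ t2)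
    (hr2 : r2 = a2 + b2) (hm2 : s2 + g2 + t2 = S) (hb2 : b2 ≤ g2) (ha2 : a2 ≤ s2)
    (he2 : s2 = 2 * a2) (hg2 : 2 * g2 ≤ s2)
    (na3 : 0 ≤ a3) (ns3 : 0 ≤ s3) (nb3 : 0 ≤ b3) (ng3 : 0 ≤ g3) (nt3 : 0 ≤ t3)
    (hr3 : r3 = a3 + b3) (hm3 : s3 + g3 + t3 = S) (hb3 : b3 ≤ g3) (ha3 : a3 ≤ s3)
    (he3 : 5 * a3 ≤ s3) (hg3 : 2 * g3 ≤ s3)
    (hT1 : z < r2 + r3)
    (hT2 : z < r3 + r1)
    (hT3 : z < r1 + r2)
    (hE1a : z < a1 + (r2 + r3) / 2 + (ell r2 (s1 + t1) + ell r3 (s1 + t1)) / 2)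
    (hE1b : z < b1 + (r2 + r3) / 2 + (ell r2 (g1 + t1) + ell r3 (g1 + t1)) / 2)
    (hE1c : z < (r2 + r3) / 2 + (ell r2 t1 + ell r3 t1) / 2)
    (hE2a : z < a2 + (r3 + r1) / 2 + (ell r3 (s2 + t2) + ell r1 (s2 + t2)) / 2)
    (hE2b : z < b2 + (r3 + r1) / 2 + (ell r3 (g2 + t2) + ell r1 (g2 + t2)) / 2)
    (hE2c : z < (r3 + r1) / 2 + (ell r3 t2 + ell r1 t2) / 2)
    (hE3a : z < a3 + (r1 + r2) / 2 + (ell r1 (s3 + t3) + ell r2 (s3 + t3)) / 2)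
    (hE3b : z < b3 + (r1 + r2) / 2 + (ell r1 (g3 + t3) + ell r2 (g3 + t3)) / 2)
    (hE3c : z < (r1 + r2) / 2 + (ell r1 t3 + ell r2 t3) / 2)
    (hJ1a : z < r2 + r3 + r1 - a2 - a3 + a2 / 5)
    (hJ1b : z < r2 + r3 + r1 - a2 - a3 + a3 / 2)
    (hJ2a : z < r3 + r1 + r2 - a3 - a1 + a3 / 2)
    (hJ2b : z < r3 + r1 + r2 - a3 - a1 + a1 / 5)
    (hQ3 : z < r1 + r2 + r3 - a1 - a2)
    : False := by
  have nr1 : 0 ≤ r1 := by linarith only [hr1, na1, nb1]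
  have qs1 : 0 ≤ s1 + t1 := add_nonneg ns1 nt1
  have qg1 : 0 ≤ g1 + t1 := add_nonneg ng1 nt1
  have nr2 : 0 ≤ r2 := by linarith only [hr2, na2, nb2]
  have qs2 : 0 ≤ s2 + t2 := add_nonneg ns2 nt2
  have qg2 : 0 ≤ g2 + t2 := add_nonneg ng2 nt2
  have nr3 : 0 ≤ r3 := by linarith only [hr3, na3, nb3]
  have qs3 : 0 ≤ s3 + t3 := add_nonneg ns3 nt3
  have qg3 : 0 ≤ g3 + t3 := add_nonneg ng3 nt3
  have nS : 0 ≤ S := by linarith only [hm1, ns1, ng1, nt1]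
  have nL : 0 ≤ Λ := by linarith only [hL, nr1, nr2, nr3]
  rcases le_total r2 (s3 + t3) with h9_1x | h9_1x
  · rcases le_total r1 (s3 + t3) with h9_0x | h9_0x
    · rcases le_total r3 (g2 + t2) with h7_0x | h7_0x
      · rcases le_total r1 (g2 + t2) with h7_1x | h7_1x
        · rcases le_total r3 t1 with h5_1x | h5_1x
          · linarith only [hL, hr2, hb2, he2, hg2, hE1c, e0 nr2 (nt1), e1 nr3 h5_1x, hE2b, e1 nr3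
              h7_0x, e1 nr1 h7_1x, hE3c, e0 nr1 (nt3), e0 nr2 (nt3), nL, hz]
          · linarith only [hL, hm1, he1, hg1, hr2, hb2, he2, hg2, hr3, hm3, hb3, he3, hE1c, e0 nr2
              (nt1), e2 (nt1) h5_1x, hE2b, e1 nr3 h7_0x, e1 nr1 h7_1x, hE3a, e1 nr1 h9_0x, e1 nr2
              h9_1x, hQ3, nt3, nt1, nL, hz]
        · linarith only [hS, hL, hr2, hm2, he2, hE1c, e0 nr2 (nt1), e0 nr3 (nt1), hE2b, e1 nr3
            h7_0x, e2 (qg2) h7_1x, hE2c, e0 nr3 (nt2), e0 nr1 (nt2), ns2, nL, hz]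
      · linarith only [hS, hL, hm2, he2, h7_0x, hE3a, e1 nr1 h9_0x, e1 nr2 h9_1x, hJ1a, hJ1b, nL,
          hz]
    · linarith only [hS, hL, hm3, hg3, hE1c, e0 nr2 (nt1), e0 nr3 (nt1), h9_0x, nt3, nL, hz]
  · linarith only [hS, hL, hm3, hg3, hE2c, e0 nr3 (nt2), e0 nr1 (nt2), h9_1x, nt3, nL, hz]

end Pool.Agent.H23.AF
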