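import Pool.Agent.H23.AF.Targets
import Pool.Agent.H23.AF.P1
import Pool.Agent.H23.AF.P2
import Pool.Agent.H23.AF.P3
import Pool.Agent.H23.AF.P4
import Pool.Agent.H23.AF.P5
import Pool.Agent.H23.AF.P6
import Pool.Agent.H23.AF.P7
import Pool.Agent.H23.AF.P8
import Pool.Agent.H23.AF.P9

/-! The covering in terms of logarithms (LP). -/

set_option autoImplicit false

namespace Pool.Agent.H23.AF

theorem BE_comm {z : ℝ} {x y w : Da} (h : BE z x y w) : BE z x w y := by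
  obtain ⟨h1, h2, h3⟩ := h
  exact ⟨by linarith only [h1], by linarith only [h2], by linarith only [h3]⟩

theorem BQ_comm {z : ℝ} {x y w : Da} (h : BQ z x y w) : BQ z y x w := by
  intro h1 h2 hg
  have := h h2 h1 (by rwa [Nat.gcd_comm])
  linarith only [this]

theorem BA_comm {z : ℝ} {x y w : Da} (h : BA z x y w) : BA z y x w := by
  obtain ⟨⟨h1, h2, h3⟩, ⟨e1, e2, e3⟩, ⟨j1, j2, j3, j4, j5, j6⟩, q1, q2, q3⟩ := h
  exact ⟨⟨by linarith only [h1], h3, h2⟩, ⟨e2, e1, BE_comm e3⟩, ⟨j2, j1, j5, j6, j3, j4⟩,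
    BQ_comm q1, q3, q2⟩

theorem BA_rot {z : ℝ} {x y w : Da} (h : BA z x y w) : BA z x w y := by
  obtain ⟨⟨h1, h2, h3⟩, ⟨e1, e2, e3⟩, ⟨j1, j2, j3, j4, j5, j6⟩, q1, q2, q3⟩ := h
  exact ⟨⟨h2, h1, by linarith only [h3]⟩, ⟨BE_comm e1, e3, e2⟩, ⟨j3, j4, j1, j2, j6, j5⟩,
    q2, q1, BQ_comm q3⟩

/-- The facts common to all cases. -/
structure Ctx (S z Λ : ℝ) (x y w : Da) : Prop where
  hz : 7 * z = 4 * Λ
  hS : Λ ≤ S
  hL : x.r + y.r + w.r ≤ Λ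

  na1 : 0 ≤ x.a
  ns1 : 0 ≤ x.s
  nb1 : 0 ≤ x.b
  ng1 : 0 ≤ x.g
  nt1 : 0 ≤ x.t
  hr1 : x.r = x.a + x.b
  hm1 : x.s + x.g + x.t = S
  hb1 : x.b ≤ x.g
  ha1 : x.a ≤ x.s

  na2 : 0 ≤ y.a
  ns2 : 0 ≤ y.s
  nb2 : 0 ≤ y.b
  ng2 : 0 ≤ y.g
  nt2 : 0 ≤ y.t
  hr2 : y.r = y.a + y.b
  hm2 : y.s + y.g + y.t = S
  hb2 : y.b ≤ y.g
  ha2 : y.a ≤ y.s

  na3 : 0 ≤ w.a
  ns3 : 0 ≤ w.s
  nb3 : 0 ≤ w.b
  ng3 : 0 ≤ w.g
  nt3 : 0 ≤ w.t
  hr3 : w.r = w.a + w.b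
  hm3 : w.s + w.g + w.t = S
  hb3 : w.b ≤ w.g
  ha3 : w.a ≤ w.s

  hT1 : z < y.r + w.r
  hT2 : z < w.r + x.r
  hT3 : z < x.r + y.r

  hE1a : z < x.a + (y.r + w.r) / 2 + (ell y.r (x.s + x.t) + ell w.r (x.s + x.t)) / 2
  hE1b : z < x.b + (y.r + w.r) / 2 + (ell y.r (x.g + x.t) + ell w.r (x.g + x.t)) / 2
  hE1c : z < (y.r + w.r) / 2 + (ell y.r x.t + ell w.r x.t) / 2

  hE2a : z < y.a + (w.r + x.r) / 2 + (ell w.r (y.s + y.t) + ell x.r (y.s + y.t)) / 2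
  hE2b : z < y.b + (w.r + x.r) / 2 + (ell w.r (y.g + y.t) + ell x.r (y.g + y.t)) / 2
  hE2c : z < (w.r + x.r) / 2 + (ell w.r y.t + ell x.r y.t) / 2

  hE3a : z < w.a + (x.r + y.r) / 2 + (ell x.r (w.s + w.t) + ell y.r (w.s + w.t)) / 2
  hE3b : z < w.b + (x.r + y.r) / 2 + (ell x.r (w.g + w.t) + ell y.r (w.g + w.t)) / 2
  hE3c : z < (x.r + y.r) / 2 + (ell x.r w.t + ell y.r w.t) / 2


theorem ctx {S z Λ : ℝ} {x y w : Da} (hz : 7 * z = 4 * Λ) (hS : Λ ≤ S)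
    (hL : x.r + y.r + w.r ≤ Λ) (ox : OK S x) (oy : OK S y) (ow : OK S w) (h : BA z x y w) :
    Ctx S z Λ x y w := by
  obtain ⟨⟨h1, h2, h3⟩, ⟨⟨a1, b1, c1⟩, ⟨a2, b2, c2⟩, ⟨a3, b3, c3⟩⟩, -, -⟩ := h
  obtain ⟨x1, x2, x3, x4, x5, x6, x7, x8, x9, -⟩ := ox
  obtain ⟨y1, y2, y3, y4, y5, y6, y7, y8, y9, -⟩ := oy
  obtain ⟨w1, w2, w3, w4, w5, w6, w7, w8, w9, -⟩ := ow
  exact ⟨hz, hS, hL, x1, x2, x3, x4, x5, x6, x7, x8, x9, y1, y2, y3, y4, y5, y6, y7, y8, y9,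
    w1, w2, w3, w4, w5, w6, w7, w8, w9, h3, by linarith only [h2], h1, a1, b1, c1,
    by linarith only [a2], by linarith only [b2], by linarith only [c2], a3, b3, c3⟩

/-- Shape: split in thirds. -/
def sh0 (x : Da) : Prop := x.s ≤ x.g ∧ x.g ≤ 2 * x.s

/-- Shape: nearly a power with exponent `c`. -/
def shE (c : ℝ) (x : Da) : Prop := x.s = c * x.a ∧ 2 * x.g ≤ x.s

theorem sh_0 {S : ℝ} {x : Da} (o : OK S x) (h : x.e = 0) : x.s ≤ x.g ∧ x.g ≤ 2 * x.s := by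
  obtain ⟨-, -, -, -, -, -, -, -, -, o | o⟩ := o
  · exact o.2
  · omega

theorem sh_e {S : ℝ} {x : Da} (o : OK S x) (h : x.e ≠ 0) :
    x.s = x.e * x.a ∧ 2 * x.g ≤ x.s := by
  obtain ⟨-, -, -, -, -, -, -, -, -, o | o⟩ := o
  · omega
  · exact o.2

theorem sh_2 {S : ℝ} {x : Da} (o : OK S x) (h : x.e = 2) : x.s = 2 * x.a ∧ 2 * x.g ≤ x.s := by
  have := sh_e o (by omega)
  rw [h] at this
  exact_mod_cast this

theorem sh_3 {S : ℝ} {x : Da} (o : OK S x) (h : x.e = 3) : x.s = 3 * x.a ∧ 2 * x.g ≤ x.s := by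
  have := sh_e o (by omega)
  rw [h] at this
  exact_mod_cast this

theorem sh_4 {S : ℝ} {x : Da} (o : OK S x) (h : x.e = 4) : x.s = 4 * x.a ∧ 2 * x.g ≤ x.s := by
  have := sh_e o (by omega)
  rw [h] at this
  exact_mod_cast this

theorem sh_5 {S : ℝ} {x : Da} (o : OK S x) (h : 5 ≤ x.e) : 5 * x.a ≤ x.s ∧ 2 * x.g ≤ x.s := by
  have h1 := sh_e o (by omega)
  have h2 : (5 : ℝ) ≤ x.e := by exact_mod_cast h
  have h3 : 0 ≤ x.a := o.1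
  refine ⟨?_, h1.2⟩
  rw [h1.1]
  exact mul_le_mul_of_nonneg_right h2 h3

theorem j_le {z : ℝ} {x y w : Da} {c : ℝ} (h : BJ z x y w) (ha : 0 ≤ x.a) (hx : 2 ≤ x.e)
    (hy : 2 ≤ y.e) (hc : 0 < c) (hcy : c ≤ y.e) :
    z < x.r + y.r + w.r - x.a - y.a + x.a / c := by
  have h1 := h hx hy
  have h2 : x.a / y.e ≤ x.a / c := div_le_div_of_nonneg_left ha hc hcy
  linarith only [h1, h2]

theorem ne_one {S z Λ : ℝ} {x y w : Da} (c : Ctx S z Λ x y w) (o : OK S x) : x.e ≠ 1 := by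
  intro h
  obtain ⟨h1, h2⟩ := sh_e o (by omega)
  rw [h, Nat.cast_one, one_mul] at h1
  obtain ⟨hz, hS, hL, na1, ns1, nb1, ng1, nt1, hr1, hm1, hb1, ha1, na2, ns2, nb2, ng2, nt2, hr2,
    hm2, hb2, ha2, na3, ns3, nb3, ng3, nt3, hr3, hm3, hb3, ha3, hT1, hT2, hT3, -, -, hc, -, -, -,
    -, -, -⟩ := c
  have ny : 0 ≤ y.r := by linarith only [hr2, na2, nb2]
  have nw : 0 ≤ w.r := by linarith only [hr3, na3, nb3]
  have nL : 0 ≤ Λ := by linarith only [hL, ny, nw, hr1, na1, nb1]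
  rcases le_total y.r x.t with hy | hy
  · rcases le_total w.r x.t with hw | hw
    · linarith only [hc, e1 ny hy, e1 nw hw, hz, hL, hT1, hT2, hT3, nL]
    · linarith only [hc, e1 ny hy, e2 nt1 hw, hz, hL, hT1, hT2, hT3, nL, h1, h2, hm1, hS, hr1, nb1,
        na1]
  · rcases le_total w.r x.t with hw | hw
    · linarith only [hc, e2 nt1 hy, e1 nw hw, hz, hL, hT1, hT2, hT3, nL, h1, h2, hm1, hS, hr1, nb1,
        na1]
    · linarith only [hc, e2 nt1 hy, e2 nt1 hw, hz, hL, hT1, hT2, hT3, nL, h1, h2, hm1, hS, hr1, nb1,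
        na1]

theorem q000 {S z Λ : ℝ} {x y w : Da} (c : Ctx S z Λ x y w) (ox : OK S x) (oy : OK S y)
    (ow : OK S w) (h1 : x.e = 0) (h2 : y.e = 0) (h3 : w.e = 0)
    (h : BA z x y w) : False := by
  obtain ⟨-, -, ⟨j1, j2, j3, j4, j5, j6⟩, q1, q2, q3⟩ := h
  obtain ⟨u1, v1⟩ := sh_0 ox h1
  obtain ⟨u2, v2⟩ := sh_0 oy h2
  obtain ⟨u3, v3⟩ := sh_0 ow h3
  exact p000 c.hz c.hS c.hL c.na1 c.ns1 c.nb1 c.ng1 c.nt1 c.hr1 c.hm1 c.hb1 c.ha1 u1 v1 c.na2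
    c.ns2 c.nb2 c.ng2 c.nt2 c.hr2 c.hm2 c.hb2 c.ha2 u2 v2 c.na3 c.ns3 c.nb3 c.ng3 c.nt3 c.hr3
    c.hm3 c.hb3 c.ha3 u3 v3 c.hT1 c.hT2 c.hT3 c.hE1a c.hE1b c.hE1c c.hE2a c.hE2b c.hE2c c.hE3a
    c.hE3b c.hE3c

theorem q002 {S z Λ : ℝ} {x y w : Da} (c : Ctx S z Λ x y w) (ox : OK S x) (oy : OK S y)
    (ow : OK S w) (h1 : x.e = 0) (h2 : y.e = 0) (h3 : w.e = 2)
    (h : BA z x y w) : False := by
  obtain ⟨-, -, ⟨j1, j2, j3, j4, j5, j6⟩, q1, q2, q3⟩ := h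
  obtain ⟨u1, v1⟩ := sh_0 ox h1
  obtain ⟨u2, v2⟩ := sh_0 oy h2
  obtain ⟨u3, v3⟩ := sh_2 ow h3
  exact p002 c.hz c.hS c.hL c.na1 c.ns1 c.nb1 c.ng1 c.nt1 c.hr1 c.hm1 c.hb1 c.ha1 u1 v1 c.na2
    c.ns2 c.nb2 c.ng2 c.nt2 c.hr2 c.hm2 c.hb2 c.ha2 u2 v2 c.na3 c.ns3 c.nb3 c.ng3 c.nt3 c.hr3
    c.hm3 c.hb3 c.ha3 u3 v3 c.hT1 c.hT2 c.hT3 c.hE1a c.hE1b c.hE1c c.hE2a c.hE2b c.hE2c c.hE3a
    c.hE3b c.hE3c

theorem q003 {S z Λ : ℝ} {x y w : Da} (c : Ctx S z Λ x y w) (ox : OK S x) (oy : OK S y)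
    (ow : OK S w) (h1 : x.e = 0) (h2 : y.e = 0) (h3 : w.e = 3)
    (h : BA z x y w) : False := by
  obtain ⟨-, -, ⟨j1, j2, j3, j4, j5, j6⟩, q1, q2, q3⟩ := h
  obtain ⟨u1, v1⟩ := sh_0 ox h1
  obtain ⟨u2, v2⟩ := sh_0 oy h2
  obtain ⟨u3, v3⟩ := sh_3 ow h3
  exact p003 c.hz c.hS c.hL c.na1 c.ns1 c.nb1 c.ng1 c.nt1 c.hr1 c.hm1 c.hb1 c.ha1 u1 v1 c.na2
    c.ns2 c.nb2 c.ng2 c.nt2 c.hr2 c.hm2 c.hb2 c.ha2 u2 v2 c.na3 c.ns3 c.nb3 c.ng3 c.nt3 c.hr3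
    c.hm3 c.hb3 c.ha3 u3 v3 c.hT1 c.hT2 c.hT3 c.hE1a c.hE1b c.hE1c c.hE2a c.hE2b c.hE2c c.hE3a
    c.hE3b c.hE3c

theorem q004 {S z Λ : ℝ} {x y w : Da} (c : Ctx S z Λ x y w) (ox : OK S x) (oy : OK S y)
    (ow : OK S w) (h1 : x.e = 0) (h2 : y.e = 0) (h3 : w.e = 4)
    (h : BA z x y w) : False := by
  obtain ⟨-, -, ⟨j1, j2, j3, j4, j5, j6⟩, q1, q2, q3⟩ := h
  obtain ⟨u1, v1⟩ := sh_0 ox h1
  obtain ⟨u2, v2⟩ := sh_0 oy h2
  obtain ⟨u3, v3⟩ := sh_4 ow h3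
  exact p004 c.hz c.hS c.hL c.na1 c.ns1 c.nb1 c.ng1 c.nt1 c.hr1 c.hm1 c.hb1 c.ha1 u1 v1 c.na2
    c.ns2 c.nb2 c.ng2 c.nt2 c.hr2 c.hm2 c.hb2 c.ha2 u2 v2 c.na3 c.ns3 c.nb3 c.ng3 c.nt3 c.hr3
    c.hm3 c.hb3 c.ha3 u3 v3 c.hT1 c.hT2 c.hT3 c.hE1a c.hE1b c.hE1c c.hE2a c.hE2b c.hE2c c.hE3a
    c.hE3b c.hE3c

theorem q005 {S z Λ : ℝ} {x y w : Da} (c : Ctx S z Λ x y w) (ox : OK S x) (oy : OK S y)
    (ow : OK S w) (h1 : x.e = 0) (h2 : y.e = 0) (h3 : 5 ≤ w.e)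
    (h : BA z x y w) : False := by
  obtain ⟨-, -, ⟨j1, j2, j3, j4, j5, j6⟩, q1, q2, q3⟩ := h
  obtain ⟨u1, v1⟩ := sh_0 ox h1
  obtain ⟨u2, v2⟩ := sh_0 oy h2
  obtain ⟨u3, v3⟩ := sh_5 ow h3
  exact p005 c.hz c.hS c.hL c.na1 c.ns1 c.nb1 c.ng1 c.nt1 c.hr1 c.hm1 c.hb1 c.ha1 u1 v1 c.na2
    c.ns2 c.nb2 c.ng2 c.nt2 c.hr2 c.hm2 c.hb2 c.ha2 u2 v2 c.na3 c.ns3 c.nb3 c.ng3 c.nt3 c.hr3
    c.hm3 c.hb3 c.ha3 u3 v3 c.hT1 c.hT2 c.hT3 c.hE1a c.hE1b c.hE1c c.hE2a c.hE2b c.hE2c c.hE3a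
    c.hE3b c.hE3c

theorem q022 {S z Λ : ℝ} {x y w : Da} (c : Ctx S z Λ x y w) (ox : OK S x) (oy : OK S y)
    (ow : OK S w) (h1 : x.e = 0) (h2 : y.e = 2) (h3 : w.e = 2)
    (h : BA z x y w) : False := by
  obtain ⟨-, -, ⟨j1, j2, j3, j4, j5, j6⟩, q1, q2, q3⟩ := h
  obtain ⟨u1, v1⟩ := sh_0 ox h1
  obtain ⟨u2, v2⟩ := sh_2 oy h2
  obtain ⟨u3, v3⟩ := sh_2 ow h3
  have hQ1 : z < y.r + w.r + x.r - y.a - w.a := by
    have := q3 (by omega) (by omega) (by rw [h2, h3]; decide)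
    linarith only [this]
  exact p022 c.hz c.hS c.hL c.na1 c.ns1 c.nb1 c.ng1 c.nt1 c.hr1 c.hm1 c.hb1 c.ha1 u1 v1 c.na2
    c.ns2 c.nb2 c.ng2 c.nt2 c.hr2 c.hm2 c.hb2 c.ha2 u2 v2 c.na3 c.ns3 c.nb3 c.ng3 c.nt3 c.hr3
    c.hm3 c.hb3 c.ha3 u3 v3 c.hT1 c.hT2 c.hT3 c.hE1a c.hE1b c.hE1c c.hE2a c.hE2b c.hE2c c.hE3a
    c.hE3b c.hE3c hQ1

theorem q023 {S z Λ : ℝ} {x y w : Da} (c : Ctx S z Λ x y w) (ox : OK S x) (oy : OK S y)
    (ow : OK S w) (h1 : x.e = 0) (h2 : y.e = 2) (h3 : w.e = 3)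
    (h : BA z x y w) : False := by
  obtain ⟨-, -, ⟨j1, j2, j3, j4, j5, j6⟩, q1, q2, q3⟩ := h
  obtain ⟨u1, v1⟩ := sh_0 ox h1
  obtain ⟨u2, v2⟩ := sh_2 oy h2
  obtain ⟨u3, v3⟩ := sh_3 ow h3
  have hJ1a : z < y.r + w.r + x.r - y.a - w.a + y.a / 3 := by
    have := j_le (c := 3) j5 c.na2 (by omega) (by omega) (by norm_num) (by rw [h3]; norm_num)
    linarith only [this]
  have hJ1b : z < y.r + w.r + x.r - y.a - w.a + w.a / 2 := by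
    have := j_le (c := 2) j6 c.na3 (by omega) (by omega) (by norm_num) (by rw [h2]; norm_num)
    linarith only [this]
  exact p023 c.hz c.hS c.hL c.na1 c.ns1 c.nb1 c.ng1 c.nt1 c.hr1 c.hm1 c.hb1 c.ha1 u1 v1 c.na2
    c.ns2 c.nb2 c.ng2 c.nt2 c.hr2 c.hm2 c.hb2 c.ha2 u2 v2 c.na3 c.ns3 c.nb3 c.ng3 c.nt3 c.hr3
    c.hm3 c.hb3 c.ha3 u3 v3 c.hT1 c.hT2 c.hT3 c.hE1a c.hE1b c.hE1c c.hE2a c.hE2b c.hE2c c.hE3a
    c.hE3b c.hE3c hJ1a hJ1b

theorem q024 {S z Λ : ℝ} {x y w : Da} (c : Ctx S z Λ x y w) (ox : OK S x) (oy : OK S y)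
    (ow : OK S w) (h1 : x.e = 0) (h2 : y.e = 2) (h3 : w.e = 4)
    (h : BA z x y w) : False := by
  obtain ⟨-, -, ⟨j1, j2, j3, j4, j5, j6⟩, q1, q2, q3⟩ := h
  obtain ⟨u1, v1⟩ := sh_0 ox h1
  obtain ⟨u2, v2⟩ := sh_2 oy h2
  obtain ⟨u3, v3⟩ := sh_4 ow h3
  have hQ1 : z < y.r + w.r + x.r - y.a - w.a := by
    have := q3 (by omega) (by omega) (by rw [h2, h3]; decide)
    linarith only [this]
  exact p024 c.hz c.hS c.hL c.na1 c.ns1 c.nb1 c.ng1 c.nt1 c.hr1 c.hm1 c.hb1 c.ha1 u1 v1 c.na2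
    c.ns2 c.nb2 c.ng2 c.nt2 c.hr2 c.hm2 c.hb2 c.ha2 u2 v2 c.na3 c.ns3 c.nb3 c.ng3 c.nt3 c.hr3
    c.hm3 c.hb3 c.ha3 u3 v3 c.hT1 c.hT2 c.hT3 c.hE1a c.hE1b c.hE1c c.hE2a c.hE2b c.hE2c c.hE3a
    c.hE3b c.hE3c hQ1

theorem q025 {S z Λ : ℝ} {x y w : Da} (c : Ctx S z Λ x y w) (ox : OK S x) (oy : OK S y)
    (ow : OK S w) (h1 : x.e = 0) (h2 : y.e = 2) (h3 : 5 ≤ w.e)
    (h : BA z x y w) : False := by
  obtain ⟨-, -, ⟨j1, j2, j3, j4, j5, j6⟩, q1, q2, q3⟩ := h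
  obtain ⟨u1, v1⟩ := sh_0 ox h1
  obtain ⟨u2, v2⟩ := sh_2 oy h2
  obtain ⟨u3, v3⟩ := sh_5 ow h3
  have hJ1a : z < y.r + w.r + x.r - y.a - w.a + y.a / 5 := by
    have := j_le (c := 5) j5 c.na2 (by omega) (by omega) (by norm_num) (by exact_mod_cast h3)
    linarith only [this]
  have hJ1b : z < y.r + w.r + x.r - y.a - w.a + w.a / 2 := by
    have := j_le (c := 2) j6 c.na3 (by omega) (by omega) (by norm_num) (by rw [h2]; norm_num)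
    linarith only [this]
  exact p025 c.hz c.hS c.hL c.na1 c.ns1 c.nb1 c.ng1 c.nt1 c.hr1 c.hm1 c.hb1 c.ha1 u1 v1 c.na2
    c.ns2 c.nb2 c.ng2 c.nt2 c.hr2 c.hm2 c.hb2 c.ha2 u2 v2 c.na3 c.ns3 c.nb3 c.ng3 c.nt3 c.hr3
    c.hm3 c.hb3 c.ha3 u3 v3 c.hT1 c.hT2 c.hT3 c.hE1a c.hE1b c.hE1c c.hE2a c.hE2b c.hE2c c.hE3a
    c.hE3b c.hE3c hJ1a hJ1b

theorem q033 {S z Λ : ℝ} {x y w : Da} (c : Ctx S z Λ x y w) (ox : OK S x) (oy : OK S y)
    (ow : OK S w) (h1 : x.e = 0) (h2 : y.e = 3) (h3 : w.e = 3)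
    (h : BA z x y w) : False := by
  obtain ⟨-, -, ⟨j1, j2, j3, j4, j5, j6⟩, q1, q2, q3⟩ := h
  obtain ⟨u1, v1⟩ := sh_0 ox h1
  obtain ⟨u2, v2⟩ := sh_3 oy h2
  obtain ⟨u3, v3⟩ := sh_3 ow h3
  have hQ1 : z < y.r + w.r + x.r - y.a - w.a := by
    have := q3 (by omega) (by omega) (by rw [h2, h3]; decide)
    linarith only [this]
  exact p033 c.hz c.hS c.hL c.na1 c.ns1 c.nb1 c.ng1 c.nt1 c.hr1 c.hm1 c.hb1 c.ha1 u1 v1 c.na2
    c.ns2 c.nb2 c.ng2 c.nt2 c.hr2 c.hm2 c.hb2 c.ha2 u2 v2 c.na3 c.ns3 c.nb3 c.ng3 c.nt3 c.hr3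
    c.hm3 c.hb3 c.ha3 u3 v3 c.hT1 c.hT2 c.hT3 c.hE1a c.hE1b c.hE1c c.hE2a c.hE2b c.hE2c c.hE3a
    c.hE3b c.hE3c hQ1

theorem q034 {S z Λ : ℝ} {x y w : Da} (c : Ctx S z Λ x y w) (ox : OK S x) (oy : OK S y)
    (ow : OK S w) (h1 : x.e = 0) (h2 : y.e = 3) (h3 : w.e = 4)
    (h : BA z x y w) : False := by
  obtain ⟨-, -, ⟨j1, j2, j3, j4, j5, j6⟩, q1, q2, q3⟩ := h
  obtain ⟨u1, v1⟩ := sh_0 ox h1
  obtain ⟨u2, v2⟩ := sh_3 oy h2
  obtain ⟨u3, v3⟩ := sh_4 ow h3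
  have hJ1a : z < y.r + w.r + x.r - y.a - w.a + y.a / 4 := by
    have := j_le (c := 4) j5 c.na2 (by omega) (by omega) (by norm_num) (by rw [h3]; norm_num)
    linarith only [this]
  have hJ1b : z < y.r + w.r + x.r - y.a - w.a + w.a / 3 := by
    have := j_le (c := 3) j6 c.na3 (by omega) (by omega) (by norm_num) (by rw [h2]; norm_num)
    linarith only [this]
  exact p034 c.hz c.hS c.hL c.na1 c.ns1 c.nb1 c.ng1 c.nt1 c.hr1 c.hm1 c.hb1 c.ha1 u1 v1 c.na2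
    c.ns2 c.nb2 c.ng2 c.nt2 c.hr2 c.hm2 c.hb2 c.ha2 u2 v2 c.na3 c.ns3 c.nb3 c.ng3 c.nt3 c.hr3
    c.hm3 c.hb3 c.ha3 u3 v3 c.hT1 c.hT2 c.hT3 c.hE1a c.hE1b c.hE1c c.hE2a c.hE2b c.hE2c c.hE3a
    c.hE3b c.hE3c hJ1a hJ1b

theorem q035 {S z Λ : ℝ} {x y w : Da} (c : Ctx S z Λ x y w) (ox : OK S x) (oy : OK S y)
    (ow : OK S w) (h1 : x.e = 0) (h2 : y.e = 3) (h3 : 5 ≤ w.e)
    (h : BA z x y w) : False := by
  obtain ⟨-, -, ⟨j1, j2, j3, j4, j5, j6⟩, q1, q2, q3⟩ := h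
  obtain ⟨u1, v1⟩ := sh_0 ox h1
  obtain ⟨u2, v2⟩ := sh_3 oy h2
  obtain ⟨u3, v3⟩ := sh_5 ow h3
  have hJ1a : z < y.r + w.r + x.r - y.a - w.a + y.a / 5 := by
    have := j_le (c := 5) j5 c.na2 (by omega) (by omega) (by norm_num) (by exact_mod_cast h3)
    linarith only [this]
  have hJ1b : z < y.r + w.r + x.r - y.a - w.a + w.a / 3 := by
    have := j_le (c := 3) j6 c.na3 (by omega) (by omega) (by norm_num) (by rw [h2]; norm_num)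
    linarith only [this]
  exact p035 c.hz c.hS c.hL c.na1 c.ns1 c.nb1 c.ng1 c.nt1 c.hr1 c.hm1 c.hb1 c.ha1 u1 v1 c.na2
    c.ns2 c.nb2 c.ng2 c.nt2 c.hr2 c.hm2 c.hb2 c.ha2 u2 v2 c.na3 c.ns3 c.nb3 c.ng3 c.nt3 c.hr3
    c.hm3 c.hb3 c.ha3 u3 v3 c.hT1 c.hT2 c.hT3 c.hE1a c.hE1b c.hE1c c.hE2a c.hE2b c.hE2c c.hE3a
    c.hE3b c.hE3c hJ1a hJ1b

theorem q044 {S z Λ : ℝ} {x y w : Da} (c : Ctx S z Λ x y w) (ox : OK S x) (oy : OK S y)
    (ow : OK S w) (h1 : x.e = 0) (h2 : y.e = 4) (h3 : w.e = 4)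
    (h : BA z x y w) : False := by
  obtain ⟨-, -, ⟨j1, j2, j3, j4, j5, j6⟩, q1, q2, q3⟩ := h
  obtain ⟨u1, v1⟩ := sh_0 ox h1
  obtain ⟨u2, v2⟩ := sh_4 oy h2
  obtain ⟨u3, v3⟩ := sh_4 ow h3
  have hQ1 : z < y.r + w.r + x.r - y.a - w.a := by
    have := q3 (by omega) (by omega) (by rw [h2, h3]; decide)
    linarith only [this]
  exact p044 c.hz c.hS c.hL c.na1 c.ns1 c.nb1 c.ng1 c.nt1 c.hr1 c.hm1 c.hb1 c.ha1 u1 v1 c.na2
    c.ns2 c.nb2 c.ng2 c.nt2 c.hr2 c.hm2 c.hb2 c.ha2 u2 v2 c.na3 c.ns3 c.nb3 c.ng3 c.nt3 c.hr3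
    c.hm3 c.hb3 c.ha3 u3 v3 c.hT1 c.hT2 c.hT3 c.hE1a c.hE1b c.hE1c c.hE2a c.hE2b c.hE2c c.hE3a
    c.hE3b c.hE3c hQ1

theorem q045 {S z Λ : ℝ} {x y w : Da} (c : Ctx S z Λ x y w) (ox : OK S x) (oy : OK S y)
    (ow : OK S w) (h1 : x.e = 0) (h2 : y.e = 4) (h3 : 5 ≤ w.e)
    (h : BA z x y w) : False := by
  obtain ⟨-, -, ⟨j1, j2, j3, j4, j5, j6⟩, q1, q2, q3⟩ := h
  obtain ⟨u1, v1⟩ := sh_0 ox h1
  obtain ⟨u2, v2⟩ := sh_4 oy h2
  obtain ⟨u3, v3⟩ := sh_5 ow h3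
  have hJ1a : z < y.r + w.r + x.r - y.a - w.a + y.a / 5 := by
    have := j_le (c := 5) j5 c.na2 (by omega) (by omega) (by norm_num) (by exact_mod_cast h3)
    linarith only [this]
  have hJ1b : z < y.r + w.r + x.r - y.a - w.a + w.a / 4 := by
    have := j_le (c := 4) j6 c.na3 (by omega) (by omega) (by norm_num) (by rw [h2]; norm_num)
    linarith only [this]
  exact p045 c.hz c.hS c.hL c.na1 c.ns1 c.nb1 c.ng1 c.nt1 c.hr1 c.hm1 c.hb1 c.ha1 u1 v1 c.na2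
    c.ns2 c.nb2 c.ng2 c.nt2 c.hr2 c.hm2 c.hb2 c.ha2 u2 v2 c.na3 c.ns3 c.nb3 c.ng3 c.nt3 c.hr3
    c.hm3 c.hb3 c.ha3 u3 v3 c.hT1 c.hT2 c.hT3 c.hE1a c.hE1b c.hE1c c.hE2a c.hE2b c.hE2c c.hE3a
    c.hE3b c.hE3c hJ1a hJ1b

theorem q055 {S z Λ : ℝ} {x y w : Da} (c : Ctx S z Λ x y w) (ox : OK S x) (oy : OK S y)
    (ow : OK S w) (h1 : x.e = 0) (h2 : 5 ≤ y.e) (h3 : 5 ≤ w.e)
    (h : BA z x y w) : False := by
  obtain ⟨-, -, ⟨j1, j2, j3, j4, j5, j6⟩, q1, q2, q3⟩ := h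
  obtain ⟨u1, v1⟩ := sh_0 ox h1
  obtain ⟨u2, v2⟩ := sh_5 oy h2
  obtain ⟨u3, v3⟩ := sh_5 ow h3
  have hJ1a : z < y.r + w.r + x.r - y.a - w.a + y.a / 5 := by
    have := j_le (c := 5) j5 c.na2 (by omega) (by omega) (by norm_num) (by exact_mod_cast h3)
    linarith only [this]
  have hJ1b : z < y.r + w.r + x.r - y.a - w.a + w.a / 5 := by
    have := j_le (c := 5) j6 c.na3 (by omega) (by omega) (by norm_num) (by exact_mod_cast h2)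
    linarith only [this]
  exact p055 c.hz c.hS c.hL c.na1 c.ns1 c.nb1 c.ng1 c.nt1 c.hr1 c.hm1 c.hb1 c.ha1 u1 v1 c.na2
    c.ns2 c.nb2 c.ng2 c.nt2 c.hr2 c.hm2 c.hb2 c.ha2 u2 v2 c.na3 c.ns3 c.nb3 c.ng3 c.nt3 c.hr3
    c.hm3 c.hb3 c.ha3 u3 v3 c.hT1 c.hT2 c.hT3 c.hE1a c.hE1b c.hE1c c.hE2a c.hE2b c.hE2c c.hE3a
    c.hE3b c.hE3c hJ1a hJ1b

theorem q222 {S z Λ : ℝ} {x y w : Da} (c : Ctx S z Λ x y w) (ox : OK S x) (oy : OK S y)
    (ow : OK S w) (h1 : x.e = 2) (h2 : y.e = 2) (h3 : w.e = 2)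
    (h : BA z x y w) : False := by
  obtain ⟨-, -, ⟨j1, j2, j3, j4, j5, j6⟩, q1, q2, q3⟩ := h
  obtain ⟨u1, v1⟩ := sh_2 ox h1
  obtain ⟨u2, v2⟩ := sh_2 oy h2
  obtain ⟨u3, v3⟩ := sh_2 ow h3
  have hQ1 : z < y.r + w.r + x.r - y.a - w.a := by
    have := q3 (by omega) (by omega) (by rw [h2, h3]; decide)
    linarith only [this]
  have hQ2 : z < w.r + x.r + y.r - w.a - x.a := by
    have := q2 (by omega) (by omega) (by rw [h1, h3]; decide)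
    linarith only [this]
  have hQ3 : z < x.r + y.r + w.r - x.a - y.a := by
    have := q1 (by omega) (by omega) (by rw [h1, h2]; decide)
    linarith only [this]
  exact p222 c.hz c.hS c.hL c.na1 c.ns1 c.nb1 c.ng1 c.nt1 c.hr1 c.hm1 c.hb1 c.ha1 u1 v1 c.na2
    c.ns2 c.nb2 c.ng2 c.nt2 c.hr2 c.hm2 c.hb2 c.ha2 u2 v2 c.na3 c.ns3 c.nb3 c.ng3 c.nt3 c.hr3
    c.hm3 c.hb3 c.ha3 u3 v3 c.hT1 c.hT2 c.hT3 c.hE1a c.hE1b c.hE1c c.hE2a c.hE2b c.hE2c c.hE3a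
    c.hE3b c.hE3c hQ1 hQ2 hQ3

theorem q223 {S z Λ : ℝ} {x y w : Da} (c : Ctx S z Λ x y w) (ox : OK S x) (oy : OK S y)
    (ow : OK S w) (h1 : x.e = 2) (h2 : y.e = 2) (h3 : w.e = 3)
    (h : BA z x y w) : False := by
  obtain ⟨-, -, ⟨j1, j2, j3, j4, j5, j6⟩, q1, q2, q3⟩ := h
  obtain ⟨u1, v1⟩ := sh_2 ox h1
  obtain ⟨u2, v2⟩ := sh_2 oy h2
  obtain ⟨u3, v3⟩ := sh_3 ow h3
  have hJ1a : z < y.r + w.r + x.r - y.a - w.a + y.a / 3 := by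
    have := j_le (c := 3) j5 c.na2 (by omega) (by omega) (by norm_num) (by rw [h3]; norm_num)
    linarith only [this]
  have hJ1b : z < y.r + w.r + x.r - y.a - w.a + w.a / 2 := by
    have := j_le (c := 2) j6 c.na3 (by omega) (by omega) (by norm_num) (by rw [h2]; norm_num)
    linarith only [this]
  have hJ2a : z < w.r + x.r + y.r - w.a - x.a + w.a / 2 := by
    have := j_le (c := 2) j4 c.na3 (by omega) (by omega) (by norm_num) (by rw [h1]; norm_num)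
    linarith only [this]
  have hJ2b : z < w.r + x.r + y.r - w.a - x.a + x.a / 3 := by
    have := j_le (c := 3) j3 c.na1 (by omega) (by omega) (by norm_num) (by rw [h3]; norm_num)
    linarith only [this]
  have hQ3 : z < x.r + y.r + w.r - x.a - y.a := by
    have := q1 (by omega) (by omega) (by rw [h1, h2]; decide)
    linarith only [this]
  exact p223 c.hz c.hS c.hL c.na1 c.ns1 c.nb1 c.ng1 c.nt1 c.hr1 c.hm1 c.hb1 c.ha1 u1 v1 c.na2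
    c.ns2 c.nb2 c.ng2 c.nt2 c.hr2 c.hm2 c.hb2 c.ha2 u2 v2 c.na3 c.ns3 c.nb3 c.ng3 c.nt3 c.hr3
    c.hm3 c.hb3 c.ha3 u3 v3 c.hT1 c.hT2 c.hT3 c.hE1a c.hE1b c.hE1c c.hE2a c.hE2b c.hE2c c.hE3a
    c.hE3b c.hE3c hJ1a hJ1b hJ2a hJ2b hQ3

theorem q224 {S z Λ : ℝ} {x y w : Da} (c : Ctx S z Λ x y w) (ox : OK S x) (oy : OK S y)
    (ow : OK S w) (h1 : x.e = 2) (h2 : y.e = 2) (h3 : w.e = 4)
    (h : BA z x y w) : False := by
  obtain ⟨-, -, ⟨j1, j2, j3, j4, j5, j6⟩, q1, q2, q3⟩ := h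
  obtain ⟨u1, v1⟩ := sh_2 ox h1
  obtain ⟨u2, v2⟩ := sh_2 oy h2
  obtain ⟨u3, v3⟩ := sh_4 ow h3
  have hQ1 : z < y.r + w.r + x.r - y.a - w.a := by
    have := q3 (by omega) (by omega) (by rw [h2, h3]; decide)
    linarith only [this]
  have hQ2 : z < w.r + x.r + y.r - w.a - x.a := by
    have := q2 (by omega) (by omega) (by rw [h1, h3]; decide)
    linarith only [this]
  have hQ3 : z < x.r + y.r + w.r - x.a - y.a := by
    have := q1 (by omega) (by omega) (by rw [h1, h2]; decide)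
    linarith only [this]
  exact p224 c.hz c.hS c.hL c.na1 c.ns1 c.nb1 c.ng1 c.nt1 c.hr1 c.hm1 c.hb1 c.ha1 u1 v1 c.na2
    c.ns2 c.nb2 c.ng2 c.nt2 c.hr2 c.hm2 c.hb2 c.ha2 u2 v2 c.na3 c.ns3 c.nb3 c.ng3 c.nt3 c.hr3
    c.hm3 c.hb3 c.ha3 u3 v3 c.hT1 c.hT2 c.hT3 c.hE1a c.hE1b c.hE1c c.hE2a c.hE2b c.hE2c c.hE3a
    c.hE3b c.hE3c hQ1 hQ2 hQ3

theorem q225 {S z Λ : ℝ} {x y w : Da} (c : Ctx S z Λ x y w) (ox : OK S x) (oy : OK S y)
    (ow : OK S w) (h1 : x.e = 2) (h2 : y.e = 2) (h3 : 5 ≤ w.e)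
    (h : BA z x y w) : False := by
  obtain ⟨-, -, ⟨j1, j2, j3, j4, j5, j6⟩, q1, q2, q3⟩ := h
  obtain ⟨u1, v1⟩ := sh_2 ox h1
  obtain ⟨u2, v2⟩ := sh_2 oy h2
  obtain ⟨u3, v3⟩ := sh_5 ow h3
  have hJ1a : z < y.r + w.r + x.r - y.a - w.a + y.a / 5 := by
    have := j_le (c := 5) j5 c.na2 (by omega) (by omega) (by norm_num) (by exact_mod_cast h3)
    linarith only [this]
  have hJ1b : z < y.r + w.r + x.r - y.a - w.a + w.a / 2 := by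
    have := j_le (c := 2) j6 c.na3 (by omega) (by omega) (by norm_num) (by rw [h2]; norm_num)
    linarith only [this]
  have hJ2a : z < w.r + x.r + y.r - w.a - x.a + w.a / 2 := by
    have := j_le (c := 2) j4 c.na3 (by omega) (by omega) (by norm_num) (by rw [h1]; norm_num)
    linarith only [this]
  have hJ2b : z < w.r + x.r + y.r - w.a - x.a + x.a / 5 := by
    have := j_le (c := 5) j3 c.na1 (by omega) (by omega) (by norm_num) (by exact_mod_cast h3)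
    linarith only [this]
  have hQ3 : z < x.r + y.r + w.r - x.a - y.a := by
    have := q1 (by omega) (by omega) (by rw [h1, h2]; decide)
    linarith only [this]
  exact p225 c.hz c.hS c.hL c.na1 c.ns1 c.nb1 c.ng1 c.nt1 c.hr1 c.hm1 c.hb1 c.ha1 u1 v1 c.na2
    c.ns2 c.nb2 c.ng2 c.nt2 c.hr2 c.hm2 c.hb2 c.ha2 u2 v2 c.na3 c.ns3 c.nb3 c.ng3 c.nt3 c.hr3
    c.hm3 c.hb3 c.ha3 u3 v3 c.hT1 c.hT2 c.hT3 c.hE1a c.hE1b c.hE1c c.hE2a c.hE2b c.hE2c c.hE3a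
    c.hE3b c.hE3c hJ1a hJ1b hJ2a hJ2b hQ3

theorem q233 {S z Λ : ℝ} {x y w : Da} (c : Ctx S z Λ x y w) (ox : OK S x) (oy : OK S y)
    (ow : OK S w) (h1 : x.e = 2) (h2 : y.e = 3) (h3 : w.e = 3)
    (h : BA z x y w) : False := by
  obtain ⟨-, -, ⟨j1, j2, j3, j4, j5, j6⟩, q1, q2, q3⟩ := h
  obtain ⟨u1, v1⟩ := sh_2 ox h1
  obtain ⟨u2, v2⟩ := sh_3 oy h2
  obtain ⟨u3, v3⟩ := sh_3 ow h3
  have hQ1 : z < y.r + w.r + x.r - y.a - w.a := by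
    have := q3 (by omega) (by omega) (by rw [h2, h3]; decide)
    linarith only [this]
  have hJ2a : z < w.r + x.r + y.r - w.a - x.a + w.a / 2 := by
    have := j_le (c := 2) j4 c.na3 (by omega) (by omega) (by norm_num) (by rw [h1]; norm_num)
    linarith only [this]
  have hJ2b : z < w.r + x.r + y.r - w.a - x.a + x.a / 3 := by
    have := j_le (c := 3) j3 c.na1 (by omega) (by omega) (by norm_num) (by rw [h3]; norm_num)
    linarith only [this]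
  have hJ3a : z < x.r + y.r + w.r - x.a - y.a + x.a / 3 := by
    have := j_le (c := 3) j1 c.na1 (by omega) (by omega) (by norm_num) (by rw [h2]; norm_num)
    linarith only [this]
  have hJ3b : z < x.r + y.r + w.r - x.a - y.a + y.a / 2 := by
    have := j_le (c := 2) j2 c.na2 (by omega) (by omega) (by norm_num) (by rw [h1]; norm_num)
    linarith only [this]
  exact p233 c.hz c.hS c.hL c.na1 c.ns1 c.nb1 c.ng1 c.nt1 c.hr1 c.hm1 c.hb1 c.ha1 u1 v1 c.na2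
    c.ns2 c.nb2 c.ng2 c.nt2 c.hr2 c.hm2 c.hb2 c.ha2 u2 v2 c.na3 c.ns3 c.nb3 c.ng3 c.nt3 c.hr3
    c.hm3 c.hb3 c.ha3 u3 v3 c.hT1 c.hT2 c.hT3 c.hE1a c.hE1b c.hE1c c.hE2a c.hE2b c.hE2c c.hE3a
    c.hE3b c.hE3c hQ1 hJ2a hJ2b hJ3a hJ3b

theorem q234 {S z Λ : ℝ} {x y w : Da} (c : Ctx S z Λ x y w) (ox : OK S x) (oy : OK S y)
    (ow : OK S w) (h1 : x.e = 2) (h2 : y.e = 3) (h3 : w.e = 4)
    (h : BA z x y w) : False := by
  obtain ⟨-, -, ⟨j1, j2, j3, j4, j5, j6⟩, q1, q2, q3⟩ := h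
  obtain ⟨u1, v1⟩ := sh_2 ox h1
  obtain ⟨u2, v2⟩ := sh_3 oy h2
  obtain ⟨u3, v3⟩ := sh_4 ow h3
  have hJ1a : z < y.r + w.r + x.r - y.a - w.a + y.a / 4 := by
    have := j_le (c := 4) j5 c.na2 (by omega) (by omega) (by norm_num) (by rw [h3]; norm_num)
    linarith only [this]
  have hJ1b : z < y.r + w.r + x.r - y.a - w.a + w.a / 3 := by
    have := j_le (c := 3) j6 c.na3 (by omega) (by omega) (by norm_num) (by rw [h2]; norm_num)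
    linarith only [this]
  have hQ2 : z < w.r + x.r + y.r - w.a - x.a := by
    have := q2 (by omega) (by omega) (by rw [h1, h3]; decide)
    linarith only [this]
  have hJ3a : z < x.r + y.r + w.r - x.a - y.a + x.a / 3 := by
    have := j_le (c := 3) j1 c.na1 (by omega) (by omega) (by norm_num) (by rw [h2]; norm_num)
    linarith only [this]
  have hJ3b : z < x.r + y.r + w.r - x.a - y.a + y.a / 2 := by
    have := j_le (c := 2) j2 c.na2 (by omega) (by omega) (by norm_num) (by rw [h1]; norm_num)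
    linarith only [this]
  exact p234 c.hz c.hS c.hL c.na1 c.ns1 c.nb1 c.ng1 c.nt1 c.hr1 c.hm1 c.hb1 c.ha1 u1 v1 c.na2
    c.ns2 c.nb2 c.ng2 c.nt2 c.hr2 c.hm2 c.hb2 c.ha2 u2 v2 c.na3 c.ns3 c.nb3 c.ng3 c.nt3 c.hr3
    c.hm3 c.hb3 c.ha3 u3 v3 c.hT1 c.hT2 c.hT3 c.hE1a c.hE1b c.hE1c c.hE2a c.hE2b c.hE2c c.hE3a
    c.hE3b c.hE3c hJ1a hJ1b hQ2 hJ3a hJ3b

theorem q235 {S z Λ : ℝ} {x y w : Da} (c : Ctx S z Λ x y w) (ox : OK S x) (oy : OK S y)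
    (ow : OK S w) (h1 : x.e = 2) (h2 : y.e = 3) (h3 : 5 ≤ w.e)
    (h : BA z x y w) : False := by
  obtain ⟨-, -, ⟨j1, j2, j3, j4, j5, j6⟩, q1, q2, q3⟩ := h
  obtain ⟨u1, v1⟩ := sh_2 ox h1
  obtain ⟨u2, v2⟩ := sh_3 oy h2
  obtain ⟨u3, v3⟩ := sh_5 ow h3
  have hJ1a : z < y.r + w.r + x.r - y.a - w.a + y.a / 5 := by
    have := j_le (c := 5) j5 c.na2 (by omega) (by omega) (by norm_num) (by exact_mod_cast h3)
    linarith only [this]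
  have hJ1b : z < y.r + w.r + x.r - y.a - w.a + w.a / 3 := by
    have := j_le (c := 3) j6 c.na3 (by omega) (by omega) (by norm_num) (by rw [h2]; norm_num)
    linarith only [this]
  have hJ2a : z < w.r + x.r + y.r - w.a - x.a + w.a / 2 := by
    have := j_le (c := 2) j4 c.na3 (by omega) (by omega) (by norm_num) (by rw [h1]; norm_num)
    linarith only [this]
  have hJ2b : z < w.r + x.r + y.r - w.a - x.a + x.a / 5 := by
    have := j_le (c := 5) j3 c.na1 (by omega) (by omega) (by norm_num) (by exact_mod_cast h3)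
    linarith only [this]
  have hJ3a : z < x.r + y.r + w.r - x.a - y.a + x.a / 3 := by
    have := j_le (c := 3) j1 c.na1 (by omega) (by omega) (by norm_num) (by rw [h2]; norm_num)
    linarith only [this]
  have hJ3b : z < x.r + y.r + w.r - x.a - y.a + y.a / 2 := by
    have := j_le (c := 2) j2 c.na2 (by omega) (by omega) (by norm_num) (by rw [h1]; norm_num)
    linarith only [this]
  exact p235 c.hz c.hS c.hL c.na1 c.ns1 c.nb1 c.ng1 c.nt1 c.hr1 c.hm1 c.hb1 c.ha1 u1 v1 c.na2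
    c.ns2 c.nb2 c.ng2 c.nt2 c.hr2 c.hm2 c.hb2 c.ha2 u2 v2 c.na3 c.ns3 c.nb3 c.ng3 c.nt3 c.hr3
    c.hm3 c.hb3 c.ha3 u3 v3 c.hT1 c.hT2 c.hT3 c.hE1a c.hE1b c.hE1c c.hE2a c.hE2b c.hE2c c.hE3a
    c.hE3b c.hE3c hJ1a hJ1b hJ2a hJ2b hJ3a hJ3b

theorem q244 {S z Λ : ℝ} {x y w : Da} (c : Ctx S z Λ x y w) (ox : OK S x) (oy : OK S y)
    (ow : OK S w) (h1 : x.e = 2) (h2 : y.e = 4) (h3 : w.e = 4)
    (h : BA z x y w) : False := by
  obtain ⟨-, -, ⟨j1, j2, j3, j4, j5, j6⟩, q1, q2, q3⟩ := h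
  obtain ⟨u1, v1⟩ := sh_2 ox h1
  obtain ⟨u2, v2⟩ := sh_4 oy h2
  obtain ⟨u3, v3⟩ := sh_4 ow h3
  have hQ1 : z < y.r + w.r + x.r - y.a - w.a := by
    have := q3 (by omega) (by omega) (by rw [h2, h3]; decide)
    linarith only [this]
  have hQ2 : z < w.r + x.r + y.r - w.a - x.a := by
    have := q2 (by omega) (by omega) (by rw [h1, h3]; decide)
    linarith only [this]
  have hQ3 : z < x.r + y.r + w.r - x.a - y.a := by
    have := q1 (by omega) (by omega) (by rw [h1, h2]; decide)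
    linarith only [this]
  exact p244 c.hz c.hS c.hL c.na1 c.ns1 c.nb1 c.ng1 c.nt1 c.hr1 c.hm1 c.hb1 c.ha1 u1 v1 c.na2
    c.ns2 c.nb2 c.ng2 c.nt2 c.hr2 c.hm2 c.hb2 c.ha2 u2 v2 c.na3 c.ns3 c.nb3 c.ng3 c.nt3 c.hr3
    c.hm3 c.hb3 c.ha3 u3 v3 c.hT1 c.hT2 c.hT3 c.hE1a c.hE1b c.hE1c c.hE2a c.hE2b c.hE2c c.hE3a
    c.hE3b c.hE3c hQ1 hQ2 hQ3

theorem q245 {S z Λ : ℝ} {x y w : Da} (c : Ctx S z Λ x y w) (ox : OK S x) (oy : OK S y)
    (ow : OK S w) (h1 : x.e = 2) (h2 : y.e = 4) (h3 : 5 ≤ w.e)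
    (h : BA z x y w) : False := by
  obtain ⟨-, -, ⟨j1, j2, j3, j4, j5, j6⟩, q1, q2, q3⟩ := h
  obtain ⟨u1, v1⟩ := sh_2 ox h1
  obtain ⟨u2, v2⟩ := sh_4 oy h2
  obtain ⟨u3, v3⟩ := sh_5 ow h3
  have hJ1a : z < y.r + w.r + x.r - y.a - w.a + y.a / 5 := by
    have := j_le (c := 5) j5 c.na2 (by omega) (by omega) (by norm_num) (by exact_mod_cast h3)
    linarith only [this]
  have hJ1b : z < y.r + w.r + x.r - y.a - w.a + w.a / 4 := by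
    have := j_le (c := 4) j6 c.na3 (by omega) (by omega) (by norm_num) (by rw [h2]; norm_num)
    linarith only [this]
  have hJ2a : z < w.r + x.r + y.r - w.a - x.a + w.a / 2 := by
    have := j_le (c := 2) j4 c.na3 (by omega) (by omega) (by norm_num) (by rw [h1]; norm_num)
    linarith only [this]
  have hJ2b : z < w.r + x.r + y.r - w.a - x.a + x.a / 5 := by
    have := j_le (c := 5) j3 c.na1 (by omega) (by omega) (by norm_num) (by exact_mod_cast h3)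
    linarith only [this]
  have hQ3 : z < x.r + y.r + w.r - x.a - y.a := by
    have := q1 (by omega) (by omega) (by rw [h1, h2]; decide)
    linarith only [this]
  exact p245 c.hz c.hS c.hL c.na1 c.ns1 c.nb1 c.ng1 c.nt1 c.hr1 c.hm1 c.hb1 c.ha1 u1 v1 c.na2
    c.ns2 c.nb2 c.ng2 c.nt2 c.hr2 c.hm2 c.hb2 c.ha2 u2 v2 c.na3 c.ns3 c.nb3 c.ng3 c.nt3 c.hr3
    c.hm3 c.hb3 c.ha3 u3 v3 c.hT1 c.hT2 c.hT3 c.hE1a c.hE1b c.hE1c c.hE2a c.hE2b c.hE2c c.hE3a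
    c.hE3b c.hE3c hJ1a hJ1b hJ2a hJ2b hQ3

theorem q255 {S z Λ : ℝ} {x y w : Da} (c : Ctx S z Λ x y w) (ox : OK S x) (oy : OK S y)
    (ow : OK S w) (h1 : x.e = 2) (h2 : 5 ≤ y.e) (h3 : 5 ≤ w.e)
    (h : BA z x y w) : False := by
  obtain ⟨-, -, ⟨j1, j2, j3, j4, j5, j6⟩, q1, q2, q3⟩ := h
  obtain ⟨u1, v1⟩ := sh_2 ox h1
  obtain ⟨u2, v2⟩ := sh_5 oy h2
  obtain ⟨u3, v3⟩ := sh_5 ow h3
  have hJ1a : z < y.r + w.r + x.r - y.a - w.a + y.a / 5 := by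
    have := j_le (c := 5) j5 c.na2 (by omega) (by omega) (by norm_num) (by exact_mod_cast h3)
    linarith only [this]
  have hJ1b : z < y.r + w.r + x.r - y.a - w.a + w.a / 5 := by
    have := j_le (c := 5) j6 c.na3 (by omega) (by omega) (by norm_num) (by exact_mod_cast h2)
    linarith only [this]
  have hJ2a : z < w.r + x.r + y.r - w.a - x.a + w.a / 2 := by
    have := j_le (c := 2) j4 c.na3 (by omega) (by omega) (by norm_num) (by rw [h1]; norm_num)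
    linarith only [this]
  have hJ2b : z < w.r + x.r + y.r - w.a - x.a + x.a / 5 := by
    have := j_le (c := 5) j3 c.na1 (by omega) (by omega) (by norm_num) (by exact_mod_cast h3)
    linarith only [this]
  have hJ3a : z < x.r + y.r + w.r - x.a - y.a + x.a / 5 := by
    have := j_le (c := 5) j1 c.na1 (by omega) (by omega) (by norm_num) (by exact_mod_cast h2)
    linarith only [this]
  have hJ3b : z < x.r + y.r + w.r - x.a - y.a + y.a / 2 := by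
    have := j_le (c := 2) j2 c.na2 (by omega) (by omega) (by norm_num) (by rw [h1]; norm_num)
    linarith only [this]
  exact p255 c.hz c.hS c.hL c.na1 c.ns1 c.nb1 c.ng1 c.nt1 c.hr1 c.hm1 c.hb1 c.ha1 u1 v1 c.na2
    c.ns2 c.nb2 c.ng2 c.nt2 c.hr2 c.hm2 c.hb2 c.ha2 u2 v2 c.na3 c.ns3 c.nb3 c.ng3 c.nt3 c.hr3
    c.hm3 c.hb3 c.ha3 u3 v3 c.hT1 c.hT2 c.hT3 c.hE1a c.hE1b c.hE1c c.hE2a c.hE2b c.hE2c c.hE3a
    c.hE3b c.hE3c hJ1a hJ1b hJ2a hJ2b hJ3a hJ3b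

theorem q333 {S z Λ : ℝ} {x y w : Da} (c : Ctx S z Λ x y w) (ox : OK S x) (oy : OK S y)
    (ow : OK S w) (h1 : x.e = 3) (h2 : y.e = 3) (h3 : w.e = 3)
    (h : BA z x y w) : False := by
  obtain ⟨-, -, ⟨j1, j2, j3, j4, j5, j6⟩, q1, q2, q3⟩ := h
  obtain ⟨u1, v1⟩ := sh_3 ox h1
  obtain ⟨u2, v2⟩ := sh_3 oy h2
  obtain ⟨u3, v3⟩ := sh_3 ow h3
  have hQ1 : z < y.r + w.r + x.r - y.a - w.a := by
    have := q3 (by omega) (by omega) (by rw [h2, h3]; decide)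
    linarith only [this]
  have hQ2 : z < w.r + x.r + y.r - w.a - x.a := by
    have := q2 (by omega) (by omega) (by rw [h1, h3]; decide)
    linarith only [this]
  have hQ3 : z < x.r + y.r + w.r - x.a - y.a := by
    have := q1 (by omega) (by omega) (by rw [h1, h2]; decide)
    linarith only [this]
  exact p333 c.hz c.hS c.hL c.na1 c.ns1 c.nb1 c.ng1 c.nt1 c.hr1 c.hm1 c.hb1 c.ha1 u1 v1 c.na2
    c.ns2 c.nb2 c.ng2 c.nt2 c.hr2 c.hm2 c.hb2 c.ha2 u2 v2 c.na3 c.ns3 c.nb3 c.ng3 c.nt3 c.hr3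
    c.hm3 c.hb3 c.ha3 u3 v3 c.hT1 c.hT2 c.hT3 c.hE1a c.hE1b c.hE1c c.hE2a c.hE2b c.hE2c c.hE3a
    c.hE3b c.hE3c hQ1 hQ2 hQ3

theorem q334 {S z Λ : ℝ} {x y w : Da} (c : Ctx S z Λ x y w) (ox : OK S x) (oy : OK S y)
    (ow : OK S w) (h1 : x.e = 3) (h2 : y.e = 3) (h3 : w.e = 4)
    (h : BA z x y w) : False := by
  obtain ⟨-, -, ⟨j1, j2, j3, j4, j5, j6⟩, q1, q2, q3⟩ := h
  obtain ⟨u1, v1⟩ := sh_3 ox h1
  obtain ⟨u2, v2⟩ := sh_3 oy h2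
  obtain ⟨u3, v3⟩ := sh_4 ow h3
  have hJ1a : z < y.r + w.r + x.r - y.a - w.a + y.a / 4 := by
    have := j_le (c := 4) j5 c.na2 (by omega) (by omega) (by norm_num) (by rw [h3]; norm_num)
    linarith only [this]
  have hJ1b : z < y.r + w.r + x.r - y.a - w.a + w.a / 3 := by
    have := j_le (c := 3) j6 c.na3 (by omega) (by omega) (by norm_num) (by rw [h2]; norm_num)
    linarith only [this]
  have hJ2a : z < w.r + x.r + y.r - w.a - x.a + w.a / 3 := by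
    have := j_le (c := 3) j4 c.na3 (by omega) (by omega) (by norm_num) (by rw [h1]; norm_num)
    linarith only [this]
  have hJ2b : z < w.r + x.r + y.r - w.a - x.a + x.a / 4 := by
    have := j_le (c := 4) j3 c.na1 (by omega) (by omega) (by norm_num) (by rw [h3]; norm_num)
    linarith only [this]
  have hQ3 : z < x.r + y.r + w.r - x.a - y.a := by
    have := q1 (by omega) (by omega) (by rw [h1, h2]; decide)
    linarith only [this]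
  exact p334 c.hz c.hS c.hL c.na1 c.ns1 c.nb1 c.ng1 c.nt1 c.hr1 c.hm1 c.hb1 c.ha1 u1 v1 c.na2
    c.ns2 c.nb2 c.ng2 c.nt2 c.hr2 c.hm2 c.hb2 c.ha2 u2 v2 c.na3 c.ns3 c.nb3 c.ng3 c.nt3 c.hr3
    c.hm3 c.hb3 c.ha3 u3 v3 c.hT1 c.hT2 c.hT3 c.hE1a c.hE1b c.hE1c c.hE2a c.hE2b c.hE2c c.hE3a
    c.hE3b c.hE3c hJ1a hJ1b hJ2a hJ2b hQ3

theorem q335 {S z Λ : ℝ} {x y w : Da} (c : Ctx S z Λ x y w) (ox : OK S x) (oy : OK S y)
    (ow : OK S w) (h1 : x.e = 3) (h2 : y.e = 3) (h3 : 5 ≤ w.e)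
    (h : BA z x y w) : False := by
  obtain ⟨-, -, ⟨j1, j2, j3, j4, j5, j6⟩, q1, q2, q3⟩ := h
  obtain ⟨u1, v1⟩ := sh_3 ox h1
  obtain ⟨u2, v2⟩ := sh_3 oy h2
  obtain ⟨u3, v3⟩ := sh_5 ow h3
  have hJ1a : z < y.r + w.r + x.r - y.a - w.a + y.a / 5 := by
    have := j_le (c := 5) j5 c.na2 (by omega) (by omega) (by norm_num) (by exact_mod_cast h3)
    linarith only [this]
  have hJ1b : z < y.r + w.r + x.r - y.a - w.a + w.a / 3 := by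
    have := j_le (c := 3) j6 c.na3 (by omega) (by omega) (by norm_num) (by rw [h2]; norm_num)
    linarith only [this]
  have hJ2a : z < w.r + x.r + y.r - w.a - x.a + w.a / 3 := by
    have := j_le (c := 3) j4 c.na3 (by omega) (by omega) (by norm_num) (by rw [h1]; norm_num)
    linarith only [this]
  have hJ2b : z < w.r + x.r + y.r - w.a - x.a + x.a / 5 := by
    have := j_le (c := 5) j3 c.na1 (by omega) (by omega) (by norm_num) (by exact_mod_cast h3)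
    linarith only [this]
  have hQ3 : z < x.r + y.r + w.r - x.a - y.a := by
    have := q1 (by omega) (by omega) (by rw [h1, h2]; decide)
    linarith only [this]
  exact p335 c.hz c.hS c.hL c.na1 c.ns1 c.nb1 c.ng1 c.nt1 c.hr1 c.hm1 c.hb1 c.ha1 u1 v1 c.na2
    c.ns2 c.nb2 c.ng2 c.nt2 c.hr2 c.hm2 c.hb2 c.ha2 u2 v2 c.na3 c.ns3 c.nb3 c.ng3 c.nt3 c.hr3
    c.hm3 c.hb3 c.ha3 u3 v3 c.hT1 c.hT2 c.hT3 c.hE1a c.hE1b c.hE1c c.hE2a c.hE2b c.hE2c c.hE3a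
    c.hE3b c.hE3c hJ1a hJ1b hJ2a hJ2b hQ3

theorem q344 {S z Λ : ℝ} {x y w : Da} (c : Ctx S z Λ x y w) (ox : OK S x) (oy : OK S y)
    (ow : OK S w) (h1 : x.e = 3) (h2 : y.e = 4) (h3 : w.e = 4)
    (h : BA z x y w) : False := by
  obtain ⟨-, -, ⟨j1, j2, j3, j4, j5, j6⟩, q1, q2, q3⟩ := h
  obtain ⟨u1, v1⟩ := sh_3 ox h1
  obtain ⟨u2, v2⟩ := sh_4 oy h2
  obtain ⟨u3, v3⟩ := sh_4 ow h3
  have hQ1 : z < y.r + w.r + x.r - y.a - w.a := by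
    have := q3 (by omega) (by omega) (by rw [h2, h3]; decide)
    linarith only [this]
  have hJ2a : z < w.r + x.r + y.r - w.a - x.a + w.a / 3 := by
    have := j_le (c := 3) j4 c.na3 (by omega) (by omega) (by norm_num) (by rw [h1]; norm_num)
    linarith only [this]
  have hJ2b : z < w.r + x.r + y.r - w.a - x.a + x.a / 4 := by
    have := j_le (c := 4) j3 c.na1 (by omega) (by omega) (by norm_num) (by rw [h3]; norm_num)
    linarith only [this]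
  have hJ3a : z < x.r + y.r + w.r - x.a - y.a + x.a / 4 := by
    have := j_le (c := 4) j1 c.na1 (by omega) (by omega) (by norm_num) (by rw [h2]; norm_num)
    linarith only [this]
  have hJ3b : z < x.r + y.r + w.r - x.a - y.a + y.a / 3 := by
    have := j_le (c := 3) j2 c.na2 (by omega) (by omega) (by norm_num) (by rw [h1]; norm_num)
    linarith only [this]
  exact p344 c.hz c.hS c.hL c.na1 c.ns1 c.nb1 c.ng1 c.nt1 c.hr1 c.hm1 c.hb1 c.ha1 u1 v1 c.na2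
    c.ns2 c.nb2 c.ng2 c.nt2 c.hr2 c.hm2 c.hb2 c.ha2 u2 v2 c.na3 c.ns3 c.nb3 c.ng3 c.nt3 c.hr3
    c.hm3 c.hb3 c.ha3 u3 v3 c.hT1 c.hT2 c.hT3 c.hE1a c.hE1b c.hE1c c.hE2a c.hE2b c.hE2c c.hE3a
    c.hE3b c.hE3c hQ1 hJ2a hJ2b hJ3a hJ3b

theorem q345 {S z Λ : ℝ} {x y w : Da} (c : Ctx S z Λ x y w) (ox : OK S x) (oy : OK S y)
    (ow : OK S w) (h1 : x.e = 3) (h2 : y.e = 4) (h3 : 5 ≤ w.e)
    (h : BA z x y w) : False := by
  obtain ⟨-, -, ⟨j1, j2, j3, j4, j5, j6⟩, q1, q2, q3⟩ := h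
  obtain ⟨u1, v1⟩ := sh_3 ox h1
  obtain ⟨u2, v2⟩ := sh_4 oy h2
  obtain ⟨u3, v3⟩ := sh_5 ow h3
  have hJ1a : z < y.r + w.r + x.r - y.a - w.a + y.a / 5 := by
    have := j_le (c := 5) j5 c.na2 (by omega) (by omega) (by norm_num) (by exact_mod_cast h3)
    linarith only [this]
  have hJ1b : z < y.r + w.r + x.r - y.a - w.a + w.a / 4 := by
    have := j_le (c := 4) j6 c.na3 (by omega) (by omega) (by norm_num) (by rw [h2]; norm_num)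
    linarith only [this]
  have hJ2a : z < w.r + x.r + y.r - w.a - x.a + w.a / 3 := by
    have := j_le (c := 3) j4 c.na3 (by omega) (by omega) (by norm_num) (by rw [h1]; norm_num)
    linarith only [this]
  have hJ2b : z < w.r + x.r + y.r - w.a - x.a + x.a / 5 := by
    have := j_le (c := 5) j3 c.na1 (by omega) (by omega) (by norm_num) (by exact_mod_cast h3)
    linarith only [this]
  have hJ3a : z < x.r + y.r + w.r - x.a - y.a + x.a / 4 := by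
    have := j_le (c := 4) j1 c.na1 (by omega) (by omega) (by norm_num) (by rw [h2]; norm_num)
    linarith only [this]
  have hJ3b : z < x.r + y.r + w.r - x.a - y.a + y.a / 3 := by
    have := j_le (c := 3) j2 c.na2 (by omega) (by omega) (by norm_num) (by rw [h1]; norm_num)
    linarith only [this]
  exact p345 c.hz c.hS c.hL c.na1 c.ns1 c.nb1 c.ng1 c.nt1 c.hr1 c.hm1 c.hb1 c.ha1 u1 v1 c.na2
    c.ns2 c.nb2 c.ng2 c.nt2 c.hr2 c.hm2 c.hb2 c.ha2 u2 v2 c.na3 c.ns3 c.nb3 c.ng3 c.nt3 c.hr3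
    c.hm3 c.hb3 c.ha3 u3 v3 c.hT1 c.hT2 c.hT3 c.hE1a c.hE1b c.hE1c c.hE2a c.hE2b c.hE2c c.hE3a
    c.hE3b c.hE3c hJ1a hJ1b hJ2a hJ2b hJ3a hJ3b

theorem q355 {S z Λ : ℝ} {x y w : Da} (c : Ctx S z Λ x y w) (ox : OK S x) (oy : OK S y)
    (ow : OK S w) (h1 : x.e = 3) (h2 : 5 ≤ y.e) (h3 : 5 ≤ w.e)
    (h : BA z x y w) : False := by
  obtain ⟨-, -, ⟨j1, j2, j3, j4, j5, j6⟩, q1, q2, q3⟩ := h
  obtain ⟨u1, v1⟩ := sh_3 ox h1
  obtain ⟨u2, v2⟩ := sh_5 oy h2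
  obtain ⟨u3, v3⟩ := sh_5 ow h3
  have hJ1a : z < y.r + w.r + x.r - y.a - w.a + y.a / 5 := by
    have := j_le (c := 5) j5 c.na2 (by omega) (by omega) (by norm_num) (by exact_mod_cast h3)
    linarith only [this]
  have hJ1b : z < y.r + w.r + x.r - y.a - w.a + w.a / 5 := by
    have := j_le (c := 5) j6 c.na3 (by omega) (by omega) (by norm_num) (by exact_mod_cast h2)
    linarith only [this]
  have hJ2a : z < w.r + x.r + y.r - w.a - x.a + w.a / 3 := by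
    have := j_le (c := 3) j4 c.na3 (by omega) (by omega) (by norm_num) (by rw [h1]; norm_num)
    linarith only [this]
  have hJ2b : z < w.r + x.r + y.r - w.a - x.a + x.a / 5 := by
    have := j_le (c := 5) j3 c.na1 (by omega) (by omega) (by norm_num) (by exact_mod_cast h3)
    linarith only [this]
  have hJ3a : z < x.r + y.r + w.r - x.a - y.a + x.a / 5 := by
    have := j_le (c := 5) j1 c.na1 (by omega) (by omega) (by norm_num) (by exact_mod_cast h2)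
    linarith only [this]
  have hJ3b : z < x.r + y.r + w.r - x.a - y.a + y.a / 3 := by
    have := j_le (c := 3) j2 c.na2 (by omega) (by omega) (by norm_num) (by rw [h1]; norm_num)
    linarith only [this]
  exact p355 c.hz c.hS c.hL c.na1 c.ns1 c.nb1 c.ng1 c.nt1 c.hr1 c.hm1 c.hb1 c.ha1 u1 v1 c.na2
    c.ns2 c.nb2 c.ng2 c.nt2 c.hr2 c.hm2 c.hb2 c.ha2 u2 v2 c.na3 c.ns3 c.nb3 c.ng3 c.nt3 c.hr3
    c.hm3 c.hb3 c.ha3 u3 v3 c.hT1 c.hT2 c.hT3 c.hE1a c.hE1b c.hE1c c.hE2a c.hE2b c.hE2c c.hE3a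
    c.hE3b c.hE3c hJ1a hJ1b hJ2a hJ2b hJ3a hJ3b

theorem q444 {S z Λ : ℝ} {x y w : Da} (c : Ctx S z Λ x y w) (ox : OK S x) (oy : OK S y)
    (ow : OK S w) (h1 : x.e = 4) (h2 : y.e = 4) (h3 : w.e = 4)
    (h : BA z x y w) : False := by
  obtain ⟨-, -, ⟨j1, j2, j3, j4, j5, j6⟩, q1, q2, q3⟩ := h
  obtain ⟨u1, v1⟩ := sh_4 ox h1
  obtain ⟨u2, v2⟩ := sh_4 oy h2
  obtain ⟨u3, v3⟩ := sh_4 ow h3
  have hQ1 : z < y.r + w.r + x.r - y.a - w.a := by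
    have := q3 (by omega) (by omega) (by rw [h2, h3]; decide)
    linarith only [this]
  have hQ2 : z < w.r + x.r + y.r - w.a - x.a := by
    have := q2 (by omega) (by omega) (by rw [h1, h3]; decide)
    linarith only [this]
  have hQ3 : z < x.r + y.r + w.r - x.a - y.a := by
    have := q1 (by omega) (by omega) (by rw [h1, h2]; decide)
    linarith only [this]
  exact p444 c.hz c.hS c.hL c.na1 c.ns1 c.nb1 c.ng1 c.nt1 c.hr1 c.hm1 c.hb1 c.ha1 u1 v1 c.na2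
    c.ns2 c.nb2 c.ng2 c.nt2 c.hr2 c.hm2 c.hb2 c.ha2 u2 v2 c.na3 c.ns3 c.nb3 c.ng3 c.nt3 c.hr3
    c.hm3 c.hb3 c.ha3 u3 v3 c.hT1 c.hT2 c.hT3 c.hE1a c.hE1b c.hE1c c.hE2a c.hE2b c.hE2c c.hE3a
    c.hE3b c.hE3c hQ1 hQ2 hQ3

theorem q445 {S z Λ : ℝ} {x y w : Da} (c : Ctx S z Λ x y w) (ox : OK S x) (oy : OK S y)
    (ow : OK S w) (h1 : x.e = 4) (h2 : y.e = 4) (h3 : 5 ≤ w.e)
    (h : BA z x y w) : False := by
  obtain ⟨-, -, ⟨j1, j2, j3, j4, j5, j6⟩, q1, q2, q3⟩ := h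
  obtain ⟨u1, v1⟩ := sh_4 ox h1
  obtain ⟨u2, v2⟩ := sh_4 oy h2
  obtain ⟨u3, v3⟩ := sh_5 ow h3
  have hJ1a : z < y.r + w.r + x.r - y.a - w.a + y.a / 5 := by
    have := j_le (c := 5) j5 c.na2 (by omega) (by omega) (by norm_num) (by exact_mod_cast h3)
    linarith only [this]
  have hJ1b : z < y.r + w.r + x.r - y.a - w.a + w.a / 4 := by
    have := j_le (c := 4) j6 c.na3 (by omega) (by omega) (by norm_num) (by rw [h2]; norm_num)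
    linarith only [this]
  have hJ2a : z < w.r + x.r + y.r - w.a - x.a + w.a / 4 := by
    have := j_le (c := 4) j4 c.na3 (by omega) (by omega) (by norm_num) (by rw [h1]; norm_num)
    linarith only [this]
  have hJ2b : z < w.r + x.r + y.r - w.a - x.a + x.a / 5 := by
    have := j_le (c := 5) j3 c.na1 (by omega) (by omega) (by norm_num) (by exact_mod_cast h3)
    linarith only [this]
  have hQ3 : z < x.r + y.r + w.r - x.a - y.a := by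
    have := q1 (by omega) (by omega) (by rw [h1, h2]; decide)
    linarith only [this]
  exact p445 c.hz c.hS c.hL c.na1 c.ns1 c.nb1 c.ng1 c.nt1 c.hr1 c.hm1 c.hb1 c.ha1 u1 v1 c.na2
    c.ns2 c.nb2 c.ng2 c.nt2 c.hr2 c.hm2 c.hb2 c.ha2 u2 v2 c.na3 c.ns3 c.nb3 c.ng3 c.nt3 c.hr3
    c.hm3 c.hb3 c.ha3 u3 v3 c.hT1 c.hT2 c.hT3 c.hE1a c.hE1b c.hE1c c.hE2a c.hE2b c.hE2c c.hE3a
    c.hE3b c.hE3c hJ1a hJ1b hJ2a hJ2b hQ3

theorem q455 {S z Λ : ℝ} {x y w : Da} (c : Ctx S z Λ x y w) (ox : OK S x) (oy : OK S y)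
    (ow : OK S w) (h1 : x.e = 4) (h2 : 5 ≤ y.e) (h3 : 5 ≤ w.e)
    (h : BA z x y w) : False := by
  obtain ⟨-, -, ⟨j1, j2, j3, j4, j5, j6⟩, q1, q2, q3⟩ := h
  obtain ⟨u1, v1⟩ := sh_4 ox h1
  obtain ⟨u2, v2⟩ := sh_5 oy h2
  obtain ⟨u3, v3⟩ := sh_5 ow h3
  have hJ1a : z < y.r + w.r + x.r - y.a - w.a + y.a / 5 := by
    have := j_le (c := 5) j5 c.na2 (by omega) (by omega) (by norm_num) (by exact_mod_cast h3)
    linarith only [this]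
  have hJ1b : z < y.r + w.r + x.r - y.a - w.a + w.a / 5 := by
    have := j_le (c := 5) j6 c.na3 (by omega) (by omega) (by norm_num) (by exact_mod_cast h2)
    linarith only [this]
  have hJ2a : z < w.r + x.r + y.r - w.a - x.a + w.a / 4 := by
    have := j_le (c := 4) j4 c.na3 (by omega) (by omega) (by norm_num) (by rw [h1]; norm_num)
    linarith only [this]
  have hJ2b : z < w.r + x.r + y.r - w.a - x.a + x.a / 5 := by
    have := j_le (c := 5) j3 c.na1 (by omega) (by omega) (by norm_num) (by exact_mod_cast h3)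
    linarith only [this]
  have hJ3a : z < x.r + y.r + w.r - x.a - y.a + x.a / 5 := by
    have := j_le (c := 5) j1 c.na1 (by omega) (by omega) (by norm_num) (by exact_mod_cast h2)
    linarith only [this]
  have hJ3b : z < x.r + y.r + w.r - x.a - y.a + y.a / 4 := by
    have := j_le (c := 4) j2 c.na2 (by omega) (by omega) (by norm_num) (by rw [h1]; norm_num)
    linarith only [this]
  exact p455 c.hz c.hS c.hL c.na1 c.ns1 c.nb1 c.ng1 c.nt1 c.hr1 c.hm1 c.hb1 c.ha1 u1 v1 c.na2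
    c.ns2 c.nb2 c.ng2 c.nt2 c.hr2 c.hm2 c.hb2 c.ha2 u2 v2 c.na3 c.ns3 c.nb3 c.ng3 c.nt3 c.hr3
    c.hm3 c.hb3 c.ha3 u3 v3 c.hT1 c.hT2 c.hT3 c.hE1a c.hE1b c.hE1c c.hE2a c.hE2b c.hE2c c.hE3a
    c.hE3b c.hE3c hJ1a hJ1b hJ2a hJ2b hJ3a hJ3b

theorem q555 {S z Λ : ℝ} {x y w : Da} (c : Ctx S z Λ x y w) (ox : OK S x) (oy : OK S y)
    (ow : OK S w) (h1 : 5 ≤ x.e) (h2 : 5 ≤ y.e) (h3 : 5 ≤ w.e)
    (h : BA z x y w) : False := by
  obtain ⟨-, -, ⟨j1, j2, j3, j4, j5, j6⟩, q1, q2, q3⟩ := h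
  obtain ⟨u1, v1⟩ := sh_5 ox h1
  obtain ⟨u2, v2⟩ := sh_5 oy h2
  obtain ⟨u3, v3⟩ := sh_5 ow h3
  have hJ1a : z < y.r + w.r + x.r - y.a - w.a + y.a / 5 := by
    have := j_le (c := 5) j5 c.na2 (by omega) (by omega) (by norm_num) (by exact_mod_cast h3)
    linarith only [this]
  have hJ1b : z < y.r + w.r + x.r - y.a - w.a + w.a / 5 := by
    have := j_le (c := 5) j6 c.na3 (by omega) (by omega) (by norm_num) (by exact_mod_cast h2)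
    linarith only [this]
  have hJ2a : z < w.r + x.r + y.r - w.a - x.a + w.a / 5 := by
    have := j_le (c := 5) j4 c.na3 (by omega) (by omega) (by norm_num) (by exact_mod_cast h1)
    linarith only [this]
  have hJ2b : z < w.r + x.r + y.r - w.a - x.a + x.a / 5 := by
    have := j_le (c := 5) j3 c.na1 (by omega) (by omega) (by norm_num) (by exact_mod_cast h3)
    linarith only [this]
  have hJ3a : z < x.r + y.r + w.r - x.a - y.a + x.a / 5 := by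
    have := j_le (c := 5) j1 c.na1 (by omega) (by omega) (by norm_num) (by exact_mod_cast h2)
    linarith only [this]
  have hJ3b : z < x.r + y.r + w.r - x.a - y.a + y.a / 5 := by
    have := j_le (c := 5) j2 c.na2 (by omega) (by omega) (by norm_num) (by exact_mod_cast h1)
    linarith only [this]
  exact p555 c.hz c.hS c.hL c.na1 c.ns1 c.nb1 c.ng1 c.nt1 c.hr1 c.hm1 c.hb1 c.ha1 u1 v1 c.na2
    c.ns2 c.nb2 c.ng2 c.nt2 c.hr2 c.hm2 c.hb2 c.ha2 u2 v2 c.na3 c.ns3 c.nb3 c.ng3 c.nt3 c.hr3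
    c.hm3 c.hb3 c.ha3 u3 v3 c.hT1 c.hT2 c.hT3 c.hE1a c.hE1b c.hE1c c.hE2a c.hE2b c.hE2c c.hE3a
    c.hE3b c.hE3c hJ1a hJ1b hJ2a hJ2b hJ3a hJ3b


theorem sorted {S z Λ : ℝ} {x y w : Da} (c : Ctx S z Λ x y w) (ox : OK S x) (oy : OK S y)
    (ow : OK S w) (n1 : x.e ≠ 1) (n2 : y.e ≠ 1) (n3 : w.e ≠ 1) (hxy : min x.e 5 ≤ min y.e 5)
    (hyw : min y.e 5 ≤ min w.e 5) (h : BA z x y w) : False := by
  have h1 : x.e = 0 ∨ x.e = 2 ∨ x.e = 3 ∨ x.e = 4 ∨ 5 ≤ x.e := by omega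
  have h2 : y.e = 0 ∨ y.e = 2 ∨ y.e = 3 ∨ y.e = 4 ∨ 5 ≤ y.e := by omega
  have h3 : w.e = 0 ∨ w.e = 2 ∨ w.e = 3 ∨ w.e = 4 ∨ 5 ≤ w.e := by omega

  rcases h1 with h1 | h1 | h1 | h1 | h1
  · rcases h2 with h2 | h2 | h2 | h2 | h2
    · rcases h3 with h3 | h3 | h3 | h3 | h3
      · exact q000 c ox oy ow h1 h2 h3 h
      · exact q002 c ox oy ow h1 h2 h3 h
      · exact q003 c ox oy ow h1 h2 h3 h
      · exact q004 c ox oy ow h1 h2 h3 h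
      · exact q005 c ox oy ow h1 h2 h3 h
    · rcases h3 with h3 | h3 | h3 | h3 | h3
      · omega
      · exact q022 c ox oy ow h1 h2 h3 h
      · exact q023 c ox oy ow h1 h2 h3 h
      · exact q024 c ox oy ow h1 h2 h3 h
      · exact q025 c ox oy ow h1 h2 h3 h
    · rcases h3 with h3 | h3 | h3 | h3 | h3
      · omega
      · omega
      · exact q033 c ox oy ow h1 h2 h3 h
      · exact q034 c ox oy ow h1 h2 h3 h
      · exact q035 c ox oy ow h1 h2 h3 h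
    · rcases h3 with h3 | h3 | h3 | h3 | h3
      · omega
      · omega
      · omega
      · exact q044 c ox oy ow h1 h2 h3 h
      · exact q045 c ox oy ow h1 h2 h3 h
    · rcases h3 with h3 | h3 | h3 | h3 | h3
      · omega
      · omega
      · omega
      · omega
      · exact q055 c ox oy ow h1 h2 h3 h
  · rcases h2 with h2 | h2 | h2 | h2 | h2
    · omega
    · rcases h3 with h3 | h3 | h3 | h3 | h3
      · omega
      · exact q222 c ox oy ow h1 h2 h3 h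
      · exact q223 c ox oy ow h1 h2 h3 h
      · exact q224 c ox oy ow h1 h2 h3 h
      · exact q225 c ox oy ow h1 h2 h3 h
    · rcases h3 with h3 | h3 | h3 | h3 | h3
      · omega
      · omega
      · exact q233 c ox oy ow h1 h2 h3 h
      · exact q234 c ox oy ow h1 h2 h3 h
      · exact q235 c ox oy ow h1 h2 h3 h
    · rcases h3 with h3 | h3 | h3 | h3 | h3
      · omega
      · omega
      · omega
      · exact q244 c ox oy ow h1 h2 h3 h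
      · exact q245 c ox oy ow h1 h2 h3 h
    · rcases h3 with h3 | h3 | h3 | h3 | h3
      · omega
      · omega
      · omega
      · omega
      · exact q255 c ox oy ow h1 h2 h3 h
  · rcases h2 with h2 | h2 | h2 | h2 | h2
    · omega
    · omega
    · rcases h3 with h3 | h3 | h3 | h3 | h3
      · omega
      · omega
      · exact q333 c ox oy ow h1 h2 h3 h
      · exact q334 c ox oy ow h1 h2 h3 h
      · exact q335 c ox oy ow h1 h2 h3 h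
    · rcases h3 with h3 | h3 | h3 | h3 | h3
      · omega
      · omega
      · omega
      · exact q344 c ox oy ow h1 h2 h3 h
      · exact q345 c ox oy ow h1 h2 h3 h
    · rcases h3 with h3 | h3 | h3 | h3 | h3
      · omega
      · omega
      · omega
      · omega
      · exact q355 c ox oy ow h1 h2 h3 h
  · rcases h2 with h2 | h2 | h2 | h2 | h2
    · omega
    · omega
    · omega
    · rcases h3 with h3 | h3 | h3 | h3 | h3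
      · omega
      · omega
      · omega
      · exact q444 c ox oy ow h1 h2 h3 h
      · exact q445 c ox oy ow h1 h2 h3 h
    · rcases h3 with h3 | h3 | h3 | h3 | h3
      · omega
      · omega
      · omega
      · omega
      · exact q455 c ox oy ow h1 h2 h3 h
  · rcases h2 with h2 | h2 | h2 | h2 | h2
    · omega
    · omega
    · omega
    · omega
    · rcases h3 with h3 | h3 | h3 | h3 | h3
      · omega
      · omega
      · omega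
      · omega
      · exact q555 c ox oy ow h1 h2 h3 h


theorem pf_LP : T_LP := by
  intro S Λ x y w hΛ hS ox oy ow hL h
  have hz : 7 * (4 / 7 * Λ) = 4 * Λ := by ring
  have c := ctx hz hS hL ox oy ow h
  have n1 : x.e ≠ 1 := ne_one c ox
  have n2 : y.e ≠ 1 :=
    ne_one (ctx hz hS (by linarith only [hL]) oy ox ow (BA_comm h)) oy
  have n3 : w.e ≠ 1 :=
    ne_one (ctx hz hS (by linarith only [hL]) ow ox oy (BA_comm (BA_rot h))) ow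
  rcases le_total (min x.e 5) (min y.e 5) with h1 | h1
  · rcases le_total (min y.e 5) (min w.e 5) with h2 | h2
    · exact sorted c ox oy ow n1 n2 n3 h1 h2 h
    · rcases le_total (min x.e 5) (min w.e 5) with h3 | h3
      · have h' := BA_rot h
        exact sorted (ctx hz hS (by linarith only [hL]) ox ow oy h') ox ow oy n1 n3 n2 h3 h2 h'
      · have h' := BA_comm (BA_rot h)
        exact sorted (ctx hz hS (by linarith only [hL]) ow ox oy h') ow ox oy n3 n1 n2 h3 h1 h'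
  · rcases le_total (min x.e 5) (min w.e 5) with h2 | h2
    · have h' := BA_comm h
      exact sorted (ctx hz hS (by linarith only [hL]) oy ox ow h') oy ox ow n2 n1 n3 h1 h2 h'
    · rcases le_total (min y.e 5) (min w.e 5) with h3 | h3
      · have h' := BA_rot (BA_comm h)
        exact sorted (ctx hz hS (by linarith only [hL]) oy ow ox h') oy ow ox n2 n3 n1 h3 h2 h'
      · have h' := BA_comm (BA_rot (BA_comm h))
        exact sorted (ctx hz hS (by linarith only [hL]) ow oy ox h') ow oy ox n3 n2 n1 h3 h1 h'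

end Pool.Agent.H23.AF
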